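import Mathlib

/-!
# Rate rigidity for `×2, ×3`-invariant measures: definitions

The circle is represented by `[0, 1)` with the maps `x ↦ fract (s x)`.
-/

set_option autoImplicit false

open MeasureTheory Finset

namespace Pool.Agent.Helper61.FR

/-- `e(y) = exp (2 π i y)` -/
noncomputable def e (y : ℝ) : ℂ := Complex.exp (2 * Real.pi * y * Complex.I)

/-- average of `f` over the points `2 ^ i * 3 ^ k * x`, `i < M`, `k < N` -/
noncomputable def avg (M N : ℕ) (f : ℝ → ℂ) (x : ℝ) : ℂ :=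
  (∑ i ∈ range M, ∑ k ∈ range N, f (2 ^ i * 3 ^ k * x)) / (M * N)

/-- number of the points `2 ^ i * 3 ^ k * x`, `i < M`, `k < N`, in `V` -/
noncomputable def cnt (M N : ℕ) (V : Set ℝ) (x : ℝ) : ℕ :=
  open Classical in
  ((range M ×ˢ range N).filter fun t => (2 : ℝ) ^ t.1 * 3 ^ t.2 * x ∈ V).card

/-- The neighbourhood (modulo `1`) of the union of the intervals `[u / 2 ^ r, (u + 1) / 2 ^ r)`,
`u ∈ U`. -/
def nbhd (r : ℕ) (U : Finset ℕ) : Set ℝ :=
  {y | ∃ u ∈ U, ∃ z : ℤ, |y - z - (u + 1 / 2) / 2 ^ r| ≤ 3 / 4 / 2 ^ r}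

/-- the measure of the `a`-th interval of length `1 / D` -/
noncomputable def pr (μ : Measure ℝ) (D a : ℕ) : ℝ := μ.real {x | ⌊(D : ℝ) * x⌋₊ = a}

/-- Shannon entropy of the distribution `p D` on `{0, ..., D - 1}` -/
noncomputable def ent (p : ℕ → ℕ → ℝ) (D : ℕ) : ℝ := ∑ a ∈ range D, Real.negMulLog (p D a)

/-- The distributions of a measure on `[0, 1)` invariant under `x ↦ fract (2 x)` on the intervals
of length `1 / D`. -/
structure Profile (p : ℕ → ℕ → ℝ) : Prop where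
  nonneg : ∀ D a, 0 ≤ p D a
  sum_eq_one : ∀ D, 1 ≤ D → ∑ a ∈ range D, p D a = 1
  refine_eq : ∀ D s a, 1 ≤ D → 1 ≤ s → a < D → p D a = ∑ j ∈ range s, p (D * s) (a * s + j)
  inv_eq : ∀ D n a, 1 ≤ D → a < D → p D a = ∑ j ∈ range (2 ^ n), p (D * 2 ^ n) (a + D * j)

/-- A probability measure on `[0, 1)` invariant under `x ↦ fract (2 x)` and `x ↦ fract (3 x)`. -/
structure Inv23 (μ : Measure ℝ) : Prop where
  prob : IsProbabilityMeasure μ
  supp : ∀ᵐ x ∂μ, x ∈ Set.Ico (0 : ℝ) 1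
  two : MeasurePreserving (fun x : ℝ => Int.fract (2 * x)) μ μ
  three : MeasurePreserving (fun x : ℝ => Int.fract (3 * x)) μ μ

/-- the set of points for which the average of the `m`-th character over the box `M × N` deviates
from its mean by more than `η` -/
def dev (μ : Measure ℝ) (M N m : ℕ) (η : ℝ) : Set ℝ :=
  {x | η < ‖avg M N (fun y => e (m * y)) x - ∫ y, e (m * y) ∂μ‖}

end Pool.Agent.Helper61.FR
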