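import Mathlib
import Pool.Agent.Helper61.FR.St.P3
import Pool.Agent.Helper61.FR.St.P4
import Pool.Agent.Helper61.FR.St.P5
import Pool.Agent.Helper61.FR.St.P6
import Pool.Agent.Helper61.FR.St.P7
import Pool.Agent.Helper61.FR.St.P8
import Pool.Agent.Helper61.FR.St.P9
import Pool.Agent.Helper61.FR.St.P10

/-!
# Rate rigidity: the main theorem for measures on `[0, 1)`
-/

set_option autoImplicit false

open MeasureTheory Finset Filter

namespace Pool.Agent.Helper61.FR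

/-- The sum of the masses of the cells in `B` is the mass of the union. -/
lemma sum_pr (μ : Measure ℝ) [IsProbabilityMeasure μ] (D : ℕ) (B : Finset ℕ) :
    ∑ a ∈ B, pr μ D a = μ.real {x | ⌊(D : ℝ) * x⌋₊ ∈ B} := by
  have hm : ∀ a, MeasurableSet {x : ℝ | ⌊(D : ℝ) * x⌋₊ = a} := fun a =>
    (Nat.measurable_floor.comp (measurable_const_mul _)) (measurableSet_singleton a)
  have e1 : {x : ℝ | ⌊(D : ℝ) * x⌋₊ ∈ B} = ⋃ a ∈ B, {x : ℝ | ⌊(D : ℝ) * x⌋₊ = a} := by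
    ext x; simp
  rw [e1, measureReal_biUnion_finset]
  · rfl
  · intro a _ b _ hab
    rw [Function.onFun, Set.disjoint_left]
    intro x hx hx'
    exact hab (hx.symm.trans hx')
  · exact fun a _ => hm a

/-- One step: the conditional entropy of `n` binary digits given the following ones is small. -/
lemma step_le {μ : Measure ℝ} (h : Inv23 μ) (m n M : ℕ) (hm : 1 ≤ m) (hM : 1 ≤ M)
    (h1 : m * 2 ^ (M + 3) ≤ 2 ^ n) (b ε : ℝ) (hε : 0 < ε) (hε1 : ε ≤ 1)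
    (hφ : ∫ y, e (m * y) ∂μ ≠ 0)
    (hb : μ.real (dev μ M (2 ^ n) m (‖∫ y, e (m * y) ∂μ‖ / 4)) ≤ b)
    (hcl : 2 * Real.pi * m * 2 ^ M / 2 ^ n ≤ ‖∫ y, e (m * y) ∂μ‖ / 4) :
    ent (pr μ) (3 ^ (2 ^ n) * 2 ^ n) ≤ ent (pr μ) (3 ^ (2 ^ n)) +
      (b + ε) * (n * Real.log 2) + M * Real.log 2 +
      (Real.log (16 * m / (ε * ‖∫ y, e (m * y) ∂μ‖ ^ 2)) + 1) := by
  have := h.prob
  set φ : ℂ := ∫ y, e (m * y) ∂μ with hφd
  have hφ0 : 0 < ‖φ‖ := norm_pos_iff.mpr hφ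
  have hφ1 : ‖φ‖ ≤ 1 := by
    refine (norm_integral_le_integral_norm _).trans ?_
    simp only [norm_e]
    simp
  set D : ℕ := 3 ^ (2 ^ n) with hD
  have hD1 : 1 ≤ D := Nat.one_le_pow _ _ (by norm_num)
  set S : ℕ → ℂ := fun a => avg M (2 ^ n) (fun y => e (m * y)) ((a : ℝ) / (D * 2 ^ n : ℕ)) with hS
  set κ : ℝ := ‖φ‖ / 2 with hκ
  have hκ0 : 0 < κ := by positivity
  set R : ℝ := 4 * m * 2 ^ M with hR
  have hm0 : (1 : ℝ) ≤ m := by exact_mod_cast hm
  have hR0 : 0 < R := by positivity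
  have h2M : (1 : ℝ) ≤ 2 ^ M := one_le_pow₀ (by norm_num)
  have hR4 : 4 ≤ R := by
    rw [hR]
    nlinarith [mul_le_mul hm0 h2M (by norm_num) (by positivity)]
  set B : Finset ℕ := (range (D * 2 ^ n)).filter fun a => ‖S a‖ < κ with hB
  set δ : ℝ := ε * κ ^ 2 / R with hδ
  have hδ0 : 0 < δ := by positivity
  have hδ1 : δ ≤ 1 := by
    rw [hδ, div_le_one hR0]
    have : κ ^ 2 ≤ 1 := by
      have : κ ≤ 1 := by rw [hκ]; linarith
      nlinarith
    nlinarith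
  have hDn : (0 : ℝ) < ((D * 2 ^ n : ℕ) : ℝ) := by
    have : 0 < D * 2 ^ n := by positivity
    exact_mod_cast this
  have key := stage1 (profile_pr h) D n hD1 S B R κ b δ hR0.le hκ0 hδ0 hδ1 ?_ ?_ ?_
  · refine key.trans (le_of_eq ?_)
    have e1 : δ * R / κ ^ 2 = ε := by
      rw [hδ]; field_simp
    have e2 : Real.log (1 / δ) = Real.log (16 * m / (ε * ‖φ‖ ^ 2)) + M * Real.log 2 := by
      rw [← Real.log_pow, ← Real.log_mul (by positivity) (by positivity)]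
      congr 1
      rw [hδ, hκ, hR]
      field_simp
      ring
    rw [e1, e2]; ring
  · intro c _
    have hb := bessel m n M hm hM h1 ((c : ℝ) / (D * 2 ^ n : ℕ))
    refine le_trans (le_of_eq (sum_congr rfl fun j _ => ?_)) hb
    congr 2
    simp only [hS]
    congr 1
    have hDr : (D : ℝ) ≠ 0 := by positivity
    push_cast
    field_simp
  · rw [sum_pr]
    refine le_trans (ENNReal.toReal_mono (measure_ne_top μ _) (measure_mono_ae ?_)) hb
    filter_upwards [h.supp] with x hx hxB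
    simp only [hB, mem_filter, mem_range] at hxB
    have hx0 : 0 ≤ x := hx.1
    have hcl' := avg_close m n M hM x hx0
    have e1 : avg M (2 ^ n) (fun y => e (m * y))
        ((⌊((3 ^ (2 ^ n) * 2 ^ n : ℕ) : ℝ) * x⌋₊ : ℝ) / (3 ^ (2 ^ n) * 2 ^ n : ℕ)) =
        S ⌊((D * 2 ^ n : ℕ) : ℝ) * x⌋₊ := rfl
    rw [e1] at hcl'
    have h3 : ‖avg M (2 ^ n) (fun y => e (m * y)) x‖ <
        3 / 4 * ‖φ‖ := by
      have := norm_sub_norm_le (avg M (2 ^ n) (fun y => e (m * y)) x)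
        (S ⌊((D * 2 ^ n : ℕ) : ℝ) * x⌋₊)
      have h4 := hxB.2
      rw [hκ] at h4
      linarith [hcl'.trans hcl]
    show ‖φ‖ / 4 < ‖_ - φ‖
    have := norm_sub_norm_le φ (avg M (2 ^ n) (fun y => e (m * y)) x)
    rw [norm_sub_rev] at this
    linarith
  · intro a ha haB
    simp only [hB, mem_filter, mem_range, not_and, not_lt] at haB
    exact haB ha

/-- The tail of a convergent series with nonnegative terms. -/
lemma exists_tail {F : ℕ → ℝ} (hF : Summable F) (h0 : ∀ q, 0 ≤ F q) (c : ℝ) (hc : 0 < c) :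
    ∃ N : ℕ, ∀ q₀, N ≤ q₀ → ∀ Q, ∑ q ∈ Ico q₀ Q, F q ≤ c := by
  have ht := hF.hasSum.tendsto_sum_nat
  obtain ⟨N, hN⟩ := (Metric.tendsto_atTop.mp ht) c hc
  refine ⟨N, fun q₀ hq Q => ?_⟩
  rcases le_total Q q₀ with h | h
  · rw [Ico_eq_empty_of_le h]; simpa using hc.le
  rw [sum_Ico_eq_sub _ h]
  have h1 : ∑ i ∈ range Q, F i ≤ ∑' i, F i := hF.sum_le_tsum _ (fun i _ => h0 i)
  have h2 := hN q₀ hq
  rw [Real.dist_eq, abs_lt] at h2
  linarith [h2.1]

/-- The one-step bounds of stage 1 give zero entropy, quantitatively: at some scale `20 s` the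
entropy is at most `s log 2 / 4`. -/
lemma exists_small_entropy {μ : Measure ℝ} (h : Inv23 μ) (M : ℕ → ℕ)
    (hM : ∀ q, 200 ≤ q → 1 ≤ M q ∧ 200 * M q ≤ q) (m : ℕ) (hm : 1 ≤ m)
    (hφ : ∫ y, e (m * y) ∂μ ≠ 0)
    (hW : Tendsto (fun q : ℕ => μ.real (dev μ (M q) (2 ^ q) m (‖∫ y, e (m * y) ∂μ‖ / 4))) atTop
      (nhds 0)) :
    ∃ s : ℕ, 3 ≤ s ∧ ent (pr μ) (2 ^ (20 * s)) ≤ s * Real.log 2 / 4 := by
  set φ : ℂ := ∫ y, e (m * y) ∂μ with hφd
  have hφ0 : 0 < ‖φ‖ := norm_pos_iff.mpr hφ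
  have hl2 : 0 < Real.log 2 := Real.log_pos (by norm_num)
  set c₁ : ℝ := Real.log (16 * m / (1 / 1000 * ‖φ‖ ^ 2)) + 1 with hc₁
  -- choose `n`
  have hlog : Tendsto (fun n : ℕ => (n : ℝ) * Real.log 2 * (3 / 1000)) atTop atTop :=
    (tendsto_natCast_atTop_atTop.atTop_mul_const hl2).atTop_mul_const (by norm_num)
  have hgeo : Tendsto (fun n : ℕ => 2 * Real.pi * m * (3 / 4 : ℝ) ^ n) atTop (nhds 0) := by
    have := (tendsto_pow_atTop_nhds_zero_of_lt_one (r := (3 / 4 : ℝ)) (by norm_num)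
      (by norm_num)).const_mul (2 * Real.pi * m)
    simpa using this
  have hgeo2 : Tendsto (fun n : ℕ => 8 * m * (3 / 4 : ℝ) ^ n) atTop (nhds 0) := by
    have := (tendsto_pow_atTop_nhds_zero_of_lt_one (r := (3 / 4 : ℝ)) (by norm_num)
      (by norm_num)).const_mul (8 * (m : ℝ))
    simpa using this
  obtain ⟨n, hn1, hn2, hn3, hn4, hn5⟩ := ((eventually_ge_atTop 200).and
    ((hlog.eventually_ge_atTop c₁).and ((hgeo.eventually_lt_const (u := ‖φ‖ / 4) (by positivity)).and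
    ((hgeo2.eventually_lt_const (u := (1 : ℝ)) (by norm_num)).and
    (hW.eventually_lt_const (u := (1 / 1000 : ℝ)) (by norm_num)))))).exists
  obtain ⟨hM1, hM2⟩ := hM n hn1
  have hn0 : (0 : ℝ) < n := by exact_mod_cast (by omega : 0 < n)
  -- `2 ^ M ≤ (3 / 4) ^ n 2 ^ n`
  have hpow : (2 : ℝ) ^ (M n) ≤ (3 / 4) ^ n * 2 ^ n := by
    rw [← mul_pow]
    have h1 : (2 : ℝ) ≤ (3 / 2) ^ 2 := by norm_num
    have h2 : (2 : ℝ) ^ (M n) ≤ ((3 / 2) ^ 2) ^ (M n) := pow_le_pow_left₀ (by norm_num) h1 _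
    rw [← pow_mul] at h2
    refine h2.trans ?_
    norm_num
    exact pow_le_pow_right₀ (by norm_num) (by omega)
  have h2n0 : (0 : ℝ) < 2 ^ n := by positivity
  have hm0 : (0 : ℝ) ≤ m := by positivity
  have hcond1 : m * 2 ^ (M n + 3) ≤ 2 ^ n := by
    have : (m * 2 ^ (M n + 3) : ℝ) ≤ 2 ^ n := by
      rw [pow_add]
      calc (m * (2 ^ (M n) * 2 ^ 3) : ℝ) ≤ m * ((3 / 4) ^ n * 2 ^ n * 2 ^ 3) := by gcongr
        _ = (8 * m * (3 / 4) ^ n) * 2 ^ n := by ring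
        _ ≤ 1 * 2 ^ n := by gcongr
        _ = 2 ^ n := one_mul _
    exact_mod_cast this
  have hcond2 : 2 * Real.pi * m * 2 ^ (M n) / 2 ^ n ≤ ‖φ‖ / 4 := by
    rw [div_le_iff₀ h2n0]
    calc 2 * Real.pi * m * 2 ^ (M n) ≤ 2 * Real.pi * m * ((3 / 4) ^ n * 2 ^ n) := by gcongr
      _ = (2 * Real.pi * m * (3 / 4) ^ n) * 2 ^ n := by ring
      _ ≤ ‖φ‖ / 4 * 2 ^ n := by gcongr
  have hb : μ.real (dev μ (M n) (2 ^ n) m (‖φ‖ / 4)) ≤ 1 / 1000 := hn5.le
  have hstep := step_le h m n (M n) hm hM1 hcond1 (1 / 1000) (1 / 1000) (by norm_num) (by norm_num)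
    hφ hb hcond2
  have hp := profile_pr h
  set D : ℕ := 3 ^ (2 ^ n) with hD
  have hD1 : 1 ≤ D := Nat.one_le_pow _ _ (by norm_num)
  have hstep' : ent (pr μ) (D * 2 ^ n) - ent (pr μ) D ≤ n * Real.log 2 / 100 := by
    have hMn : (M n : ℝ) ≤ n / 200 := by
      have : (200 * M n : ℝ) ≤ n := by exact_mod_cast hM2
      linarith
    have := mul_le_mul_of_nonneg_right hMn hl2.le
    have h5 : c₁ ≤ n * Real.log 2 * (3 / 1000) := hn2
    have h6 : ent (pr μ) (D * 2 ^ n) ≤ ent (pr μ) D +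
      (1 / 1000 + 1 / 1000) * (n * Real.log 2) + M n * Real.log 2 + c₁ := hstep
    linarith
  -- choose `s`
  set k' : ℕ := 40 * 2 ^ n with hk'
  refine ⟨n * k', ?_, ?_⟩
  · have : 1 ≤ k' := by
      have : 1 ≤ 2 ^ n := Nat.one_le_two_pow
      omega
    nlinarith
  have e0 : 20 * (n * k') = (20 * k') * n := by ring
  have h7 := ent_chain hp D n (20 * k') hD1
  have h8 := ent_mono hp (2 ^ (20 * (n * k'))) D Nat.one_le_two_pow hD1
  have h9 := ent_le_log hp D hD1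
  rw [mul_comm (2 ^ (20 * (n * k'))) D, e0] at h8
  rw [e0]
  have hlogD : Real.log D ≤ 2 ^ n * (2 * Real.log 2) := by
    rw [hD]
    push_cast
    rw [Real.log_pow]
    have : Real.log 3 ≤ 2 * Real.log 2 := by
      rw [← Real.log_rpow (by norm_num)]
      exact Real.log_le_log (by norm_num) (by norm_num)
    push_cast
    gcongr
  have h10 : ((20 * k' : ℕ) : ℝ) * (ent (pr μ) (D * 2 ^ n) - ent (pr μ) D) ≤
      ((20 * k' : ℕ) : ℝ) * (n * Real.log 2 / 100) :=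
    mul_le_mul_of_nonneg_left hstep' (Nat.cast_nonneg _)
  have h11 : (2 : ℝ) ^ n * (2 * Real.log 2) ≤ (n * k' : ℕ) * Real.log 2 / 20 := by
    rw [hk']
    push_cast
    have h12 : (1 : ℝ) ≤ n := by exact_mod_cast (by omega : 1 ≤ n)
    have h13 : 0 ≤ (2 : ℝ) ^ n * Real.log 2 := by positivity
    nlinarith
  calc ent (pr μ) (2 ^ (20 * k' * n)) ≤ ent (pr μ) (D * 2 ^ (20 * k' * n)) := h8
    _ ≤ ent (pr μ) D + ((20 * k' : ℕ) : ℝ) * (ent (pr μ) (D * 2 ^ n) - ent (pr μ) D) := h7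
    _ ≤ (n * k' : ℕ) * Real.log 2 / 20 + ((20 * k' : ℕ) : ℝ) * (n * Real.log 2 / 100) := by
        linarith
    _ = ((n * k' : ℕ) : ℝ) * Real.log 2 / 4 := by push_cast; ring

/-- Summability gives convergence in probability. -/
lemma tendsto_dev_of_summable {μ : Measure ℝ} (M : ℕ → ℕ) (m : ℕ) (η : ℝ)
    (hW : Summable fun q : ℕ => (2 ^ q / q : ℝ) * μ.real (dev μ (M q) (2 ^ q) m η)) :
    Tendsto (fun q : ℕ => μ.real (dev μ (M q) (2 ^ q) m η)) atTop (nhds 0) := by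
  refine squeeze_zero' (Eventually.of_forall fun _ => measureReal_nonneg) ?_
    hW.tendsto_atTop_zero
  filter_upwards [eventually_ge_atTop 1] with q hq
  have hq0 : (0 : ℝ) < q := by exact_mod_cast hq
  have h2 : (q : ℝ) ≤ 2 ^ q := by exact_mod_cast Nat.lt_two_pow_self.le
  have h1 : (1 : ℝ) ≤ 2 ^ q / q := by rw [one_le_div hq0]; exact h2
  have h3 : 0 ≤ μ.real (dev μ (M q) (2 ^ q) m η) := measureReal_nonneg
  nlinarith

/-- **Rate rigidity.**  Let `μ` be a `×2, ×3`-invariant probability measure without atoms.  If for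
each character the averages over the boxes `{2 ^ i 3 ^ k : i < M q, k < 2 ^ q}`, `M q ≤ q / 200`,
deviate from their mean with probabilities `b q` such that `∑ (2 ^ q / q) b q < ∞`, then `μ` is
Lebesgue measure. -/
theorem core {μ : Measure ℝ} (h : Inv23 μ) (h0 : ∀ x, μ {x} = 0) (M : ℕ → ℕ)
    (hM : ∀ q, 200 ≤ q → 1 ≤ M q ∧ 200 * M q ≤ q)
    (hW : ∀ m : ℕ, 1 ≤ m → ∀ η : ℝ, 0 < η →
      Summable fun q : ℕ => (2 ^ q / q : ℝ) * μ.real (dev μ (M q) (2 ^ q) m η))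
    (m : ℕ) (hm : 1 ≤ m) : ∫ y, e (m * y) ∂μ = 0 := by
  by_contra hφ
  have := h.prob
  obtain ⟨s, hs, hent⟩ := exists_small_entropy h M hM m hm hφ
    (tendsto_dev_of_summable M m _ (hW m hm _ (by have := norm_pos_iff.mpr hφ; positivity)))
  obtain ⟨U, hUr, hUc, hUm⟩ := exists_thin (profile_pr h) s hs hent
  obtain ⟨S, η, hη, hS1, hSt⟩ := typical h (20 * s) U hUm
  set r := 20 * s with hr
  -- the typical points
  set G : ℕ → Set ℝ := fun q => {x | ∀ m ∈ S, x ∉ dev μ (M q) (2 ^ q) m η} with hG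
  have hGc : ∀ q, (G q)ᶜ = ⋃ m ∈ S, dev μ (M q) (2 ^ q) m η := by
    intro q; ext x; simp [hG]
  have hGm : ∀ q, MeasurableSet (G q) := by
    intro q
    rw [← MeasurableSet.compl_iff, hGc]
    exact Finset.measurableSet_biUnion _ fun m _ => measurableSet_dev μ _ _ _ _
  have hGp : ∀ q x, Int.fract x ∈ G q ↔ x ∈ G q := by
    intro q x
    show (∀ m ∈ S, _) ↔ (∀ m ∈ S, _)
    refine forall₂_congr fun m _ => not_congr (fract_mem_dev μ _ _ _ _ _)
  -- the tail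
  set F : ℕ → ℝ := fun q => ∑ m ∈ S, (2 ^ q / q : ℝ) * μ.real (dev μ (M q) (2 ^ q) m η) with hF
  have hFs : Summable F := summable_sum fun m hm => hW m (hS1 m hm) η hη
  have hF0 : ∀ q, 0 ≤ F q := fun q => sum_nonneg fun m _ => by positivity
  obtain ⟨N, hN⟩ := exists_tail hFs hF0 (1 / 128) (by norm_num)
  set q₀ : ℕ := N + 200 + 8 * r with hq₀
  have hc := stage3 h q₀ r M (by omega) (fun q hq => by
      have := (hM q (by omega)).2
      omega) G hGm hGp ?_ ?_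
  · exact false_of_arcs h0 hc
  · intro q hq n' d τ x h1 h2 hd hτ hx hx'
    have hMq := (hM q (by omega)).1
    have h2q : 1 ≤ 2 ^ q := Nat.one_le_two_pow
    exact not_both_typical r U hUc (by omega) q (M q) n' hMq h1 h2 d hd τ x hτ
      (hSt (M q) (2 ^ q) hMq h2q x hx) (hSt (M q) (2 ^ q) hMq h2q _ hx')
  · intro Q
    refine le_trans (sum_le_sum fun q _ => ?_) (hN q₀ (by omega) Q)
    rw [hF]
    simp only
    rw [← mul_sum]
    refine mul_le_mul_of_nonneg_left ?_ (by positivity)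
    rw [hGc]
    exact measureReal_biUnion_finset_le _ _

end Pool.Agent.Helper61.FR
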