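import Mathlib
import Pool.Agent.Helper17.TranslM
import Pool.Agent.Helper61.FR.Core
import Pool.Agent.Helper61.FR.St.P12
import Pool.Agent.Helper61.FR.St.P13

/-!
# Rate rigidity on the circle
-/

set_option autoImplicit false

open MeasureTheory Finset Filter

namespace Pool.Agent.Helper61.FR

/-- average of the character `x ↦ e^{2 π i m x}` over the points `2 ^ i 3 ^ k x`, `i < M`,
`k < N` -/
noncomputable def cavg (M N : ℕ) (m : ℤ) (x : AddCircle (1 : ℝ)) : ℂ :=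
  (∑ i ∈ range M, ∑ k ∈ range N, (fourier (m * (2 ^ i * 3 ^ k)) x : ℂ)) / (M * N)

lemma cavg_coe (M N m : ℕ) (y : ℝ) :
    cavg M N m (y : AddCircle (1 : ℝ)) = avg M N (fun z => e (m * z)) y := by
  unfold cavg avg
  congr 1
  refine sum_congr rfl fun i _ => sum_congr rfl fun k _ => ?_
  rw [fourier_eq_e]
  congr 1
  push_cast
  ring

lemma continuous_cavg (M N : ℕ) (m : ℤ) : Continuous (cavg M N m) := by
  unfold cavg
  fun_prop

lemma measurable_coe_circle : Measurable (fun y : ℝ => (y : AddCircle (1 : ℝ))) :=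
  AddCircle.measurable_mk'

section

variable {ν : Measure (AddCircle (1 : ℝ))} {μ : Measure ℝ}

lemma integral_fourier_eq (hν : μ.map (fun y : ℝ => (y : AddCircle (1 : ℝ))) = ν) (m : ℤ) :
    ∫ x, (fourier m x : ℂ) ∂ν = cf μ m := by
  rw [← hν, integral_map measurable_coe_circle.aemeasurable
    (fourier m).continuous.aestronglyMeasurable]
  unfold cf
  refine integral_congr_ae (Eventually.of_forall fun y => ?_)
  simp only
  rw [fourier_eq_e]

lemma real_dev_eq (hν : μ.map (fun y : ℝ => (y : AddCircle (1 : ℝ))) = ν) (M N m : ℕ) (η : ℝ) :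
    ν.real {x | η < ‖cavg M N m x - ∫ y, (fourier m y : ℂ) ∂ν‖} = μ.real (dev μ M N m η) := by
  have h1 : MeasurableSet {x | η < ‖cavg M N m x - ∫ y, (fourier m y : ℂ) ∂ν‖} :=
    measurableSet_lt measurable_const ((continuous_cavg M N m).measurable.sub_const _).norm
  have h2 := integral_fourier_eq hν (m : ℤ)
  rw [measureReal_def, measureReal_def]
  conv_lhs => rw [← hν]
  rw [Measure.map_apply measurable_coe_circle (by rw [hν]; exact h1)]
  congr 2
  ext y
  show (η < ‖cavg M N m (y : AddCircle (1 : ℝ)) - _‖) ↔ (η < ‖_ - _‖)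
  rw [hν, cavg_coe, h2]
  rfl

lemma integral_var_eq (hν : μ.map (fun y : ℝ => (y : AddCircle (1 : ℝ))) = ν) (M N m : ℕ) :
    ∫ x, ‖cavg M N m x - ∫ y, (fourier m y : ℂ) ∂ν‖ ^ 2 ∂ν =
      ∫ x, ‖avg M N (fun y => e (m * y)) x - ∫ y, e (m * y) ∂μ‖ ^ 2 ∂μ := by
  have h2 := integral_fourier_eq hν (m : ℤ)
  rw [h2]
  conv_lhs => rw [← hν]
  have h3 : Continuous fun x => ‖cavg M N m x - cf μ m‖ ^ 2 :=
    ((continuous_cavg M N m).sub continuous_const).norm.pow 2
  rw [integral_map measurable_coe_circle.aemeasurable h3.aestronglyMeasurable]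
  refine integral_congr_ae (Eventually.of_forall fun y => ?_)
  simp only
  rw [cavg_coe]
  rfl

end

/-- **Rate rigidity on the circle.** -/
theorem circle {ν : Measure (AddCircle (1 : ℝ))} [IsProbabilityMeasure ν]
    (h2 : MeasurePreserving (fun x : AddCircle (1 : ℝ) => (2 : ℕ) • x) ν ν)
    (h3 : MeasurePreserving (fun x : AddCircle (1 : ℝ) => (3 : ℕ) • x) ν ν)
    (h0 : ∀ x, ν {x} = 0) (M : ℕ → ℕ) (hM : ∀ q, 200 ≤ q → 1 ≤ M q ∧ 200 * M q ≤ q)
    (hW : ∀ m : ℕ, 1 ≤ m → ∀ η : ℝ, 0 < η → Summable fun q : ℕ => (2 ^ q / q : ℝ) *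
      ν.real {x | η < ‖cavg (M q) (2 ^ q) m x - ∫ y, (fourier m y : ℂ) ∂ν‖})
    (m : ℕ) (hm : 1 ≤ m) : ∫ x, (fourier m x : ℂ) ∂ν = 0 := by
  obtain ⟨μ, hμ, hν, hat⟩ := exists_inv23 ν h2 h3
  have := core hμ (hat h0) M hM (fun m hm η hη => by
    have := hW m hm η hη
    simp only [real_dev_eq hν] at this
    exact this) m hm
  have h4 := integral_fourier_eq hν (m : ℤ)
  rw [h4, ← this]
  unfold cf
  push_cast
  rfl

/-- Moment bounds give summable deviations (Chebyshev). -/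
theorem summable_of_moment {ν : Measure (AddCircle (1 : ℝ))} [IsProbabilityMeasure ν]
    (M : ℕ → ℕ) (m : ℤ) (c : ℂ) (p C δ : ℝ) (hp : 0 < p) (hδ : 0 < δ)
    (hV : ∀ q : ℕ, 200 ≤ q →
      ∫ x, ‖cavg (M q) (2 ^ q) m x - c‖ ^ p ∂ν ≤ C / (2 ^ q * (q : ℝ) ^ δ)) (η : ℝ) (hη : 0 < η) :
    Summable fun q : ℕ => (2 ^ q / q : ℝ) *
      ν.real {x | η < ‖cavg (M q) (2 ^ q) m x - c‖} := by
  have hs : Summable fun q : ℕ => (|C| / η ^ p) * ((q : ℝ) ^ (-(1 + δ))) := by
    apply Summable.mul_left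
    exact Real.summable_nat_rpow.mpr (by linarith)
  rw [← summable_nat_add_iff 200] at hs ⊢
  refine Summable.of_nonneg_of_le (fun q => by positivity) (fun q => ?_) hs
  set Q := q + 200 with hQ
  have hQ0 : (0 : ℝ) < Q := by rw [hQ]; positivity
  have hηp : 0 < η ^ p := Real.rpow_pos_of_pos hη p
  have hint : Integrable (fun x => ‖cavg (M Q) (2 ^ Q) m x - c‖ ^ p) ν := by
    refine Helper17.TranslM.integrable_cont ν ?_
    exact ((continuous_cavg _ _ _).sub continuous_const).norm.rpow_const (fun x => Or.inr hp.le)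
  have h1 := mul_meas_ge_le_integral_of_nonneg
    (Eventually.of_forall fun x => by positivity) hint (η ^ p)
  have h2 : ν.real {x | η < ‖cavg (M Q) (2 ^ Q) m x - c‖} ≤
      ν.real {x | η ^ p ≤ ‖cavg (M Q) (2 ^ Q) m x - c‖ ^ p} := by
    refine measureReal_mono ?_
    intro x hx
    exact Real.rpow_le_rpow hη.le (le_of_lt hx) hp.le
  have h3 := hV Q (by omega)
  have h4 : ν.real {x | η < ‖cavg (M Q) (2 ^ Q) m x - c‖} ≤ |C| / (2 ^ Q * (Q : ℝ) ^ δ) / η ^ p := by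
    rw [le_div_iff₀ hηp]
    calc _ ≤ ν.real {x | η ^ p ≤ ‖cavg (M Q) (2 ^ Q) m x - c‖ ^ p} * η ^ p :=
          mul_le_mul_of_nonneg_right h2 hηp.le
      _ ≤ _ := by
          rw [mul_comm]
          refine h1.trans (h3.trans ?_)
          gcongr
          exact le_abs_self C
  have h5 : (2 ^ Q / Q : ℝ) * (|C| / (2 ^ Q * (Q : ℝ) ^ δ) / η ^ p) =
      |C| / η ^ p * (Q : ℝ) ^ (-(1 + δ)) := by
    rw [Real.rpow_neg hQ0.le, Real.rpow_add hQ0, Real.rpow_one]
    field_simp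
  calc _ ≤ (2 ^ Q / Q : ℝ) * (|C| / (2 ^ Q * (Q : ℝ) ^ δ) / η ^ p) := by gcongr
    _ = _ := h5

end Pool.Agent.Helper61.FR
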