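import Mathlib
import Pool.Agent.Helper61.FR.St.P1
import Pool.Agent.Helper61.FR.St.P10

/-!
# From large deviations to moving averages
-/

set_option autoImplicit false

open MeasureTheory Finset Filter

namespace Pool.Agent.Helper61.FR

/-- The boxes of two near starting points overlap. -/
lemma avg_overlap (M N m : ℕ) (hM : 1 ≤ M) (hN : 1 ≤ N) (i k : ℕ) (x : ℝ) :
    ‖avg M N (fun y => e (m * y)) (2 ^ (i + k) * x) - avg M N (fun y => e (m * y)) (2 ^ i * x)‖ ≤
      2 * k / M := by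
  set a : ℕ → ℂ := fun j => ∑ l ∈ range N, e (m * (2 ^ j * 3 ^ l * x)) with ha
  have ha1 : ∀ j, ‖a j‖ ≤ N := by
    intro j
    refine (norm_sum_le _ _).trans ?_
    simp [norm_e]
  have e1 : ∀ s : ℕ, avg M N (fun y => e (m * y)) (2 ^ s * x) =
      (∑ j ∈ range M, a (s + j)) / (M * N) := by
    intro s
    unfold avg
    congr 1
    refine sum_congr rfl fun j _ => sum_congr rfl fun l _ => ?_
    congr 1
    rw [pow_add]
    ring
  rw [e1, e1, ← sub_div, norm_div]
  have hM0 : (0 : ℝ) < M := by exact_mod_cast hM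
  have hN0 : (0 : ℝ) < N := by exact_mod_cast hN
  have hMN : ‖(M * N : ℂ)‖ = M * N := by
    rw [norm_mul, Complex.norm_natCast, Complex.norm_natCast]
  rw [hMN, div_le_div_iff₀ (by positivity) hM0]
  have e2 : ∑ j ∈ range M, a (i + k + j) - ∑ j ∈ range M, a (i + j) =
      ∑ j ∈ range k, a (i + M + j) - ∑ j ∈ range k, a (i + j) := by
    have h1 : ∑ j ∈ range (k + M), a (i + j) =
        ∑ j ∈ range k, a (i + j) + ∑ j ∈ range M, a (i + k + j) := by
      rw [sum_range_add]
      congr 1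
      refine sum_congr rfl fun j _ => ?_
      rw [add_assoc]
    have h2 : ∑ j ∈ range (M + k), a (i + j) =
        ∑ j ∈ range M, a (i + j) + ∑ j ∈ range k, a (i + M + j) := by
      rw [sum_range_add]
      congr 1
      refine sum_congr rfl fun j _ => ?_
      rw [add_assoc]
    rw [add_comm M k, h1] at h2
    linear_combination h2
  rw [e2]
  have h3 : ‖∑ j ∈ range k, a (i + M + j) - ∑ j ∈ range k, a (i + j)‖ ≤ k * N + k * N := by
    refine (norm_sub_le _ _).trans (add_le_add ?_ ?_)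
    · refine (norm_sum_le _ _).trans ?_
      refine (sum_le_card_nsmul _ _ _ fun j _ => ha1 _).trans ?_
      simp
    · refine (norm_sum_le _ _).trans ?_
      refine (sum_le_card_nsmul _ _ _ fun j _ => ha1 _).trans ?_
      simp
  calc _ ≤ (k * N + k * N) * (M : ℝ) := by gcongr
    _ = _ := by ring

/-- One scale: the probability that some moving average is bad. -/
lemma moving_bad {μ : Measure ℝ} (h : Inv23 μ) (M N m L : ℕ) (hM : 1 ≤ M) (hN : 1 ≤ N)
    (hML : M ≤ L) (η : ℝ) (hη : 0 < η) (hη1 : η ≤ 4) :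
    μ.real {x | ∃ i, i ≤ L ∧ 2 ^ i * x ∈ dev μ M N m η} ≤
      4 / (η * M) * ((2 * L + 1) * μ.real (dev μ M N m (η / 2))) := by
  classical
  have := h.prob
  have hM0 : (0 : ℝ) < M := by exact_mod_cast hM
  set K : ℕ := ⌊η * M / 4⌋₊ with hK
  have hK1 : (K : ℝ) ≤ η * M / 4 := Nat.floor_le (by positivity)
  have hK2 : η * M / 4 < K + 1 := Nat.lt_floor_add_one _
  have hKM : K ≤ M := by
    have : (K : ℝ) ≤ M := by nlinarith
    exact_mod_cast this
  set E : Set ℝ := {x | ∃ i, i ≤ L ∧ 2 ^ i * x ∈ dev μ M N m η} with hE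
  have hEm : MeasurableSet E := by
    have : E = ⋃ i : ℕ, ⋃ (_ : i ≤ L), (fun x : ℝ => 2 ^ i * x) ⁻¹' dev μ M N m η := by
      ext x; simp [hE]
    rw [this]
    exact MeasurableSet.iUnion fun i => MeasurableSet.iUnion fun _ =>
      (measurable_const_mul _) (measurableSet_dev μ _ _ _ _)
  set D : Set ℝ := dev μ M N m (η / 2) with hD
  have hDm : MeasurableSet D := measurableSet_dev μ _ _ _ _
  have hpt : ∀ x, Set.indicator E (fun _ => (1 : ℝ)) x ≤
      4 / (η * M) * ∑ i ∈ range (2 * L + 1),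
        Set.indicator ((fun x : ℝ => 2 ^ i * x) ⁻¹' D) (fun _ => (1 : ℝ)) x := by
    intro x
    by_cases hx : x ∈ E
    · rw [Set.indicator_of_mem hx]
      obtain ⟨i, hi, hdev⟩ := hx
      have h1 : ∀ k, k ≤ K → 2 ^ (i + k) * x ∈ D := by
        intro k hk
        have h2 := avg_overlap M N m hM hN i k x
        have h3 : (2 * k / M : ℝ) ≤ η / 2 := by
          rw [div_le_iff₀ hM0]
          have : (k : ℝ) ≤ K := by exact_mod_cast hk
          nlinarith
        have h4 : η < ‖avg M N (fun y => e (m * y)) (2 ^ i * x) - ∫ y, e (m * y) ∂μ‖ := hdev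
        show η / 2 < ‖avg M N (fun y => e (m * y)) (2 ^ (i + k) * x) - ∫ y, e (m * y) ∂μ‖
        have h5 := norm_sub_le_norm_sub_add_norm_sub
          (avg M N (fun y => e (m * y)) (2 ^ i * x))
          (avg M N (fun y => e (m * y)) (2 ^ (i + k) * x)) (∫ y, e (m * y) ∂μ)
        rw [norm_sub_rev (avg M N (fun y => e (m * y)) (2 ^ i * x))
          (avg M N (fun y => e (m * y)) (2 ^ (i + k) * x))] at h5
        linarith
      have h6 : ((K + 1 : ℕ) : ℝ) ≤ ∑ i ∈ range (2 * L + 1),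
          Set.indicator ((fun x : ℝ => 2 ^ i * x) ⁻¹' D) (fun _ => (1 : ℝ)) x := by
        have h7 : (range (K + 1)).image (fun k => i + k) ⊆ range (2 * L + 1) := by
          intro j hj
          rw [mem_image] at hj
          obtain ⟨k, hk, rfl⟩ := hj
          rw [mem_range] at hk ⊢
          omega
        refine le_trans (le_of_eq ?_) (sum_le_sum_of_subset_of_nonneg h7 fun j _ _ =>
          Set.indicator_nonneg (fun _ _ => zero_le_one) _)
        rw [sum_image (fun a _ b _ hab => by simpa using hab)]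
        have h10 : ∀ k ∈ range (K + 1), Set.indicator ((fun x : ℝ => 2 ^ (i + k) * x) ⁻¹' D)
            (fun _ => (1 : ℝ)) x = 1 := by
          intro k hk
          rw [mem_range] at hk
          have h11 : x ∈ (fun x : ℝ => 2 ^ (i + k) * x) ⁻¹' D := h1 k (by omega)
          exact Set.indicator_of_mem h11 _
        rw [sum_congr rfl h10]
        simp
      have h8 : (1 : ℝ) ≤ 4 / (η * M) * (K + 1 : ℕ) := by
        rw [div_mul_eq_mul_div, one_le_div (by positivity)]
        push_cast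
        linarith
      exact h8.trans (by gcongr)
    · rw [Set.indicator_of_notMem hx]
      refine mul_nonneg (by positivity) (sum_nonneg fun i _ =>
        Set.indicator_nonneg (fun _ _ => zero_le_one) _)
  have hpre : ∀ i : ℕ, μ.real ((fun x : ℝ => 2 ^ i * x) ⁻¹' D) = μ.real D := by
    intro i
    have h1 : (fun x : ℝ => 2 ^ i * x) ⁻¹' D = (fun x : ℝ => Int.fract (2 ^ i * x)) ⁻¹' D := by
      ext x
      simp only [Set.mem_preimage]
      exact (fract_mem_dev μ M N m (η / 2) _).symm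
    rw [h1, measureReal_def, (preserving_two_pow h i).measure_preimage hDm.nullMeasurableSet,
      ← measureReal_def]
  have hint := integral_mono (μ := μ) ((integrable_const 1).indicator hEm)
    ((integrable_finsetSum (range (2 * L + 1)) fun i _ =>
      (integrable_const (1 : ℝ)).indicator ((measurable_const_mul ((2 : ℝ) ^ i)) hDm)).const_mul
      (4 / (η * M))) hpt
  rw [integral_indicator_const _ hEm, integral_const_mul, integral_finsetSum _ fun i _ =>
    (integrable_const (1 : ℝ)).indicator ((measurable_const_mul ((2 : ℝ) ^ i)) hDm)] at hint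
  have h9 : ∀ i ∈ range (2 * L + 1),
      ∫ x, Set.indicator ((fun x : ℝ => 2 ^ i * x) ⁻¹' D) (fun _ => (1 : ℝ)) x ∂μ = μ.real D := by
    intro i _
    rw [integral_indicator_const _ ((measurable_const_mul ((2 : ℝ) ^ i)) hDm), hpre]
    simp
  rw [sum_congr rfl h9] at hint
  simpa using hint

theorem forward_of_summable {μ : Measure ℝ} (h : Inv23 μ) (m : ℕ)
    (hW : ∀ η : ℝ, 0 < η →
      Summable fun q : ℕ => (2 ^ q / q : ℝ) * μ.real (dev μ (q / 200) (2 ^ q) m η)) :
    ∀ᵐ x ∂μ, ∀ ε : ℝ, 0 < ε → ∃ Q : ℕ, ∀ q, Q ≤ q → ∀ i, i ≤ 2 ^ q →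
      ‖avg (q / 200) (2 ^ q) (fun y => e (m * y)) (2 ^ i * x) - ∫ y, e (m * y) ∂μ‖ ≤ ε := by
  have := h.prob
  have key : ∀ η : ℝ, 0 < η → η ≤ 4 → ∀ᵐ x ∂μ, ∀ᶠ q : ℕ in atTop,
      x ∉ {x | ∃ i, i ≤ 2 ^ q ∧ 2 ^ i * x ∈ dev μ (q / 200) (2 ^ q) m η} := by
    intro η hη hη4
    apply ae_eventually_notMem
    have hs : Summable fun q : ℕ =>
        μ.real {x | ∃ i, i ≤ 2 ^ q ∧ 2 ^ i * x ∈ dev μ (q / 200) (2 ^ q) m η} := by
      have hW' := (hW (η / 2) (by positivity)).mul_left (4800 / η)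
      rw [← summable_nat_add_iff 200] at hW' ⊢
      refine Summable.of_nonneg_of_le (fun _ => measureReal_nonneg) (fun q => ?_) hW'
      obtain ⟨Q, hQ⟩ : ∃ Q, Q = q + 200 := ⟨_, rfl⟩
      rw [← hQ]
      have hM1 : 1 ≤ Q / 200 := by omega
      have h2Q : Q < 2 ^ Q := Nat.lt_two_pow_self
      refine (moving_bad h (Q / 200) (2 ^ Q) m (2 ^ Q) hM1 Nat.one_le_two_pow (by omega) η hη
        hη4).trans ?_
      have hM2 : (Q : ℝ) / 400 ≤ (Q / 200 : ℕ) := by
        have h1 : Q ≤ 400 * (Q / 200) := by omega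
        have h2 : (Q : ℝ) ≤ 400 * (Q / 200 : ℕ) := by exact_mod_cast h1
        linarith
      have hQ0 : (0 : ℝ) < Q := by exact_mod_cast (by omega : 0 < Q)
      have hb : 0 ≤ μ.real (dev μ (Q / 200) (2 ^ Q) m (η / 2)) := measureReal_nonneg
      have h1 : 4 / (η * (Q / 200 : ℕ)) ≤ 1600 / (η * Q) := by
        rw [div_le_div_iff₀ (by positivity) (by positivity)]
        nlinarith
      have h2 : (2 * (2 ^ Q : ℕ) + 1 : ℝ) ≤ 3 * 2 ^ Q := by
        push_cast
        have : (1 : ℝ) ≤ 2 ^ Q := one_le_pow₀ (by norm_num)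
        linarith
      calc _ ≤ 1600 / (η * Q) * (3 * 2 ^ Q * μ.real (dev μ (Q / 200) (2 ^ Q) m (η / 2))) := by
            gcongr
        _ = 4800 / η * ((2 ^ Q / Q : ℝ) * μ.real (dev μ (Q / 200) (2 ^ Q) m (η / 2))) := by
            field_simp
            ring
    have h1 := hs.tsum_ofReal_ne_top
    refine ne_of_eq_of_ne (tsum_congr fun q => ?_) h1
    rw [measureReal_def, ENNReal.ofReal_toReal (measure_ne_top μ _)]
  have hall : ∀ᵐ x ∂μ, ∀ k : ℕ, ∀ᶠ q : ℕ in atTop,
      x ∉ {x | ∃ i, i ≤ 2 ^ q ∧ 2 ^ i * x ∈ dev μ (q / 200) (2 ^ q) m (1 / (k + 1))} := by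
    rw [ae_all_iff]
    intro k
    refine key _ (by positivity) ?_
    rw [div_le_iff₀ (by positivity)]
    have : (0 : ℝ) ≤ k := Nat.cast_nonneg k
    linarith
  filter_upwards [hall] with x hx ε hε
  obtain ⟨k, hk⟩ := exists_nat_one_div_lt hε
  obtain ⟨Q, hQ⟩ := eventually_atTop.mp (hx k)
  refine ⟨Q, fun q hq i hi => ?_⟩
  have h1 := hQ q hq
  by_contra hcon
  push Not at hcon
  exact h1 ⟨i, hi, hk.trans hcon⟩

end Pool.Agent.Helper61.FR
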