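import Mathlib

/-!
# A finite maximal inequality for stationary sequences
-/

set_option autoImplicit false

open MeasureTheory Finset

namespace Pool.Agent.Helper61.FR

/-- Deterministic form (a covering argument). -/
lemma maximal_count (b : ℕ → Prop) [DecidablePred b] (P : ℕ → Prop) [DecidablePred P]
    (hP : ∀ t, P t → ∃ l, 1 ≤ l ∧ l ≤ t ∧ l ≤ 7 * ((Ico (t - l) t).filter b).card) (L : ℕ) :
    ((Icc 1 L).filter P).card ≤ 7 * ((range L).filter b).card := by
  induction L using Nat.strong_induction_on with
  | _ L ih =>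
    rcases Nat.eq_zero_or_pos L with rfl | hL
    · simp
    by_cases h : P L
    · obtain ⟨l, h1, h2, h3⟩ := hP L h
      have ih' := ih (L - l) (by omega)
      have e1 : (range L).filter b = (range (L - l)).filter b ∪ (Ico (L - l) L).filter b := by
        ext u; simp only [mem_filter, mem_range, mem_union, mem_Ico]
        constructor
        · rintro ⟨hu, hb⟩
          by_cases hu' : u < L - l
          · exact Or.inl ⟨hu', hb⟩
          · exact Or.inr ⟨⟨by omega, hu⟩, hb⟩
        · rintro (⟨hu, hb⟩ | ⟨⟨_, hu⟩, hb⟩)
          · exact ⟨by omega, hb⟩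
          · exact ⟨hu, hb⟩
      have d1 : Disjoint ((range (L - l)).filter b) ((Ico (L - l) L).filter b) := by
        rw [disjoint_left]
        intro u hu hu'
        simp only [mem_filter, mem_range, mem_Ico] at hu hu'
        omega
      rw [e1, card_union_of_disjoint d1]
      have e2 : ((Icc 1 L).filter P).card ≤ ((Icc 1 (L - l)).filter P).card + l := by
        have hsub : (Icc 1 L).filter P ⊆ (Icc 1 (L - l)).filter P ∪ Ioc (L - l) L := by
          intro u hu
          simp only [mem_filter, mem_Icc, mem_union, mem_Ioc] at hu ⊢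
          by_cases hu' : u ≤ L - l
          · exact Or.inl ⟨⟨hu.1.1, hu'⟩, hu.2⟩
          · exact Or.inr ⟨by omega, hu.1.2⟩
        refine (card_le_card hsub).trans ((card_union_le _ _).trans ?_)
        rw [Nat.card_Ioc]
        omega
      omega
    · have ih' := ih (L - 1) (by omega)
      have e2 : (Icc 1 L).filter P = (Icc 1 (L - 1)).filter P := by
        ext u
        simp only [mem_filter, mem_Icc]
        constructor
        · rintro ⟨⟨h1, h2⟩, h3⟩
          refine ⟨⟨h1, ?_⟩, h3⟩
          by_contra h4
          have : u = L := by omega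
          exact h (this ▸ h3)
        · rintro ⟨⟨h1, h2⟩, h3⟩
          exact ⟨⟨h1, by omega⟩, h3⟩
      rw [e2]
      refine ih'.trans (Nat.mul_le_mul_left _ (card_le_card ?_))
      exact filter_subset_filter _ (range_subset_range.mpr (by omega))

open Classical in
/-- The set of points `x` such that for some `l ≤ n` at least one seventh of the points
`T ^ (n - 1) x, ..., T ^ (n - l) x` is outside `A`. -/
def pastBad {X : Type*} (T : X → X) (A : Set X) (n : ℕ) : Set X :=
  {x | ∃ l, 1 ≤ l ∧ l ≤ n ∧ l ≤ 7 * ((Ico (n - l) n).filter fun u => T^[u] x ∉ A).card}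

theorem maximal_ineq {X : Type*} [MeasurableSpace X] {ν : Measure X} [IsProbabilityMeasure ν]
    {T : X → X} (hT : MeasurePreserving T ν ν) {A : Set X} (hA : MeasurableSet A) (n : ℕ) :
    MeasurableSet (pastBad T A n) ∧ ν.real (pastBad T A n) ≤ 7 * ν.real Aᶜ := by
  classical
  have hmA : ∀ u, MeasurableSet {x | T^[u] x ∉ A} := fun u =>
    (hT.iterate u).measurable hA.compl
  have hmeas : MeasurableSet (pastBad T A n) := by
    have e1 : pastBad T A n = ⋃ l ∈ Icc 1 n, ⋃ B ∈ ((Ico (n - l) n).powerset.filter
        fun B => l ≤ 7 * B.card), ⋂ u ∈ B, {x | T^[u] x ∉ A} := by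
      ext x
      simp only [pastBad, Set.mem_ofPred_eq, Set.mem_iUnion, mem_Icc, mem_filter, mem_powerset,
        exists_prop, Set.mem_iInter]
      constructor
      · rintro ⟨l, h1, h2, h3⟩
        refine ⟨l, ⟨h1, h2⟩, (Ico (n - l) n).filter fun u => T^[u] x ∉ A,
          ⟨filter_subset _ _, ?_⟩, fun u hu => (mem_filter.mp hu).2⟩
        convert h3
      · rintro ⟨l, ⟨h1, h2⟩, B, ⟨h3, h4⟩, h5⟩
        refine ⟨l, h1, h2, h4.trans (Nat.mul_le_mul_left _ (card_le_card ?_))⟩
        intro u hu
        exact mem_filter.mpr ⟨h3 hu, h5 u hu⟩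
    rw [e1]
    refine Finset.measurableSet_biUnion _ fun l _ => Finset.measurableSet_biUnion _ fun B _ => ?_
    exact Finset.measurableSet_biInter _ fun u _ => hmA u
  refine ⟨hmeas, ?_⟩
  set Bd := pastBad T A n with hBd
  have hint : ∀ (C : Set X), MeasurableSet C → ∀ u : ℕ,
      ∫ x, Set.indicator C (fun _ => (1 : ℝ)) (T^[u] x) ∂ν = ν.real C := by
    intro C hC u
    have h1 : (fun x => Set.indicator C (fun _ => (1 : ℝ)) (T^[u] x)) =
        Set.indicator (T^[u] ⁻¹' C) (fun _ => (1 : ℝ)) := by
      ext x; simp [Set.indicator]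
    rw [h1, integral_indicator_const _ ((hT.iterate u).measurable hC), smul_eq_mul, mul_one,
      measureReal_def, (hT.iterate u).measure_preimage hC.nullMeasurableSet, ← measureReal_def]
  have hintb : ∀ (C : Set X), MeasurableSet C → ∀ u : ℕ,
      Integrable (fun x => Set.indicator C (fun _ => (1 : ℝ)) (T^[u] x)) ν := by
    intro C hC u
    have h1 : (fun x => Set.indicator C (fun _ => (1 : ℝ)) (T^[u] x)) =
        Set.indicator (T^[u] ⁻¹' C) (fun _ => (1 : ℝ)) := by
      ext x; simp [Set.indicator]
    rw [h1]
    exact (integrable_const 1).indicator ((hT.iterate u).measurable hC)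
  have key : ∀ L : ℕ, (L : ℝ) * ν.real Bd ≤ 7 * ((L + n : ℕ) * ν.real Aᶜ) := by
    intro L
    have hpt : ∀ x, ∑ t ∈ range L, Set.indicator Bd (fun _ => (1 : ℝ)) (T^[t] x) ≤
        7 * ∑ u ∈ range (L + n), Set.indicator Aᶜ (fun _ => (1 : ℝ)) (T^[u] x) := by
      intro x
      have e1 : ∑ u ∈ range (L + n), Set.indicator Aᶜ (fun _ => (1 : ℝ)) (T^[u] x) =
          (((range (L + n)).filter fun u => T^[u] x ∉ A).card : ℝ) := by
        rw [card_filter]
        push_cast
        refine sum_congr rfl fun u _ => ?_
        simp [Set.indicator]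
      have e2 : ∑ t ∈ range L, Set.indicator Bd (fun _ => (1 : ℝ)) (T^[t] x) =
          (((range L).filter fun t => T^[t] x ∈ Bd).card : ℝ) := by
        rw [card_filter]
        push_cast
        refine sum_congr rfl fun u _ => ?_
        simp [Set.indicator]
      rw [e1, e2]
      have h1 := maximal_count (fun u => T^[u] x ∉ A) (fun t => 1 ≤ n ∧ n ≤ t ∧
        T^[t - n] x ∈ Bd) (by
          rintro t ⟨hn, hnt, ht⟩
          obtain ⟨l, h1, h2, h3⟩ := ht
          refine ⟨l, h1, h2.trans hnt, h3.trans (Nat.mul_le_mul_left _ ?_)⟩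
          refine card_le_card_of_injOn (fun u => u + (t - n)) ?_ ?_
          · intro u hu
            simp only [coe_filter, mem_Ico, Set.mem_ofPred_eq] at hu ⊢
            refine ⟨by omega, ?_⟩
            rw [Function.iterate_add_apply]
            exact hu.2
          · intro u _ v _ huv
            simpa using huv) (L + n)
      rcases Nat.eq_zero_or_pos n with hn | hn
      · have : Bd = ∅ := by
          rw [hBd]
          ext x
          simp only [pastBad, Set.mem_ofPred_eq, Set.mem_empty_iff_false, iff_false]
          rintro ⟨l, h1, h2, -⟩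
          omega
        rw [this]
        simp only [Set.mem_empty_iff_false, filter_false, card_empty, Nat.cast_zero]
        positivity
      · have h2 : ((range L).filter fun t => T^[t] x ∈ Bd).card ≤
            ((Icc 1 (L + n)).filter fun t => 1 ≤ n ∧ n ≤ t ∧ T^[t - n] x ∈ Bd).card := by
          refine card_le_card_of_injOn (fun t => t + n) ?_ ?_
          · intro t ht
            simp only [coe_filter, mem_range, Set.mem_ofPred_eq, mem_Icc] at ht ⊢
            refine ⟨by omega, hn, by omega, ?_⟩
            rw [Nat.add_sub_cancel]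
            exact ht.2
          · intro u _ v _ huv
            simpa using huv
        exact_mod_cast h2.trans h1
    have h3 := integral_mono (μ := ν)
      (integrable_finsetSum _ fun t _ => hintb Bd hmeas t)
      ((integrable_finsetSum _ fun u _ => hintb Aᶜ hA.compl u).const_mul 7) hpt
    rw [integral_finsetSum _ fun t _ => hintb Bd hmeas t, integral_const_mul,
      integral_finsetSum _ fun u _ => hintb Aᶜ hA.compl u] at h3
    simp only [hint Bd hmeas, hint Aᶜ hA.compl, sum_const, card_range, nsmul_eq_mul] at h3
    exact h3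
  by_contra hcon
  push Not at hcon
  set δ := ν.real Bd - 7 * ν.real Aᶜ with hδ
  have hδ0 : 0 < δ := by linarith
  obtain ⟨L, hL⟩ := exists_nat_gt (7 * (n * ν.real Aᶜ) / δ)
  rw [div_lt_iff₀ hδ0] at hL
  have := key L
  push_cast at this
  nlinarith

end Pool.Agent.Helper61.FR
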