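import Mathlib
import Pool.Agent.Helper61.FR.St.P10
import Pool.Agent.Helper61.FR.Maximal

/-!
# Forward and past moving averages
-/

set_option autoImplicit false

open MeasureTheory Finset Filter

namespace Pool.Agent.Helper61.FR

lemma fract_two_pow_fract (i u : ℕ) (x : ℝ) :
    Int.fract (2 ^ i * Int.fract (2 ^ u * x)) = Int.fract (2 ^ (i + u) * x) := by
  rw [Int.fract_eq_fract]
  refine ⟨-(2 ^ i * ⌊(2 : ℝ) ^ u * x⌋), ?_⟩
  rw [Int.fract, pow_add]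
  push_cast
  ring

lemma iterate_fract_two (u : ℕ) (x : ℝ) (hx : x ∈ Set.Ico (0 : ℝ) 1) :
    (fun y : ℝ => Int.fract (2 * y))^[u] x = Int.fract (2 ^ u * x) := by
  induction u with
  | zero => simp [Int.fract_eq_self.mpr hx]
  | succ u ih =>
    rw [Function.iterate_succ_apply', ih]
    have := fract_two_pow_fract 1 u x
    rw [pow_one] at this
    rw [this, add_comm]

/-- the points whose moving averages are good from the scale `q₀` on -/
def goodSet (μ : Measure ℝ) (M : ℕ → ℕ) (S : Finset ℕ) (η : ℝ) (q₀ : ℕ) : Set ℝ :=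
  {x | ∀ q, q₀ ≤ q → ∀ i, i ≤ 2 ^ q → ∀ m ∈ S, 2 ^ i * x ∉ dev μ (M q) (2 ^ q) m η}

lemma measurableSet_goodSet (μ : Measure ℝ) (M : ℕ → ℕ) (S : Finset ℕ) (η : ℝ) (q₀ : ℕ) :
    MeasurableSet (goodSet μ M S η q₀) := by
  have e1 : goodSet μ M S η q₀ = ⋂ q : ℕ, ⋂ (_ : q₀ ≤ q), ⋂ i : ℕ, ⋂ (_ : i ≤ 2 ^ q), ⋂ m ∈ S,
      (fun x : ℝ => 2 ^ i * x) ⁻¹' (dev μ (M q) (2 ^ q) m η)ᶜ := by
    ext x
    simp only [goodSet, Set.mem_ofPred_eq, Set.mem_iInter, Set.mem_preimage, Set.mem_compl_iff]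
  rw [e1]
  refine MeasurableSet.iInter fun q => MeasurableSet.iInter fun _ => MeasurableSet.iInter fun i =>
    MeasurableSet.iInter fun _ => Finset.measurableSet_biInter _ fun m _ => ?_
  exact (measurable_const_mul _) (measurableSet_dev μ _ _ _ _).compl

/-- The measure of the complements of the good sets tends to zero. -/
lemma tendsto_goodSet {μ : Measure ℝ} (h : Inv23 μ) (M : ℕ → ℕ)
    (hF : ∀ m : ℕ, 1 ≤ m → ∀ᵐ x ∂μ, ∀ ε : ℝ, 0 < ε → ∃ Q : ℕ, ∀ q, Q ≤ q → ∀ i, i ≤ 2 ^ q →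
      ‖avg (M q) (2 ^ q) (fun y => e (m * y)) (2 ^ i * x) - ∫ y, e (m * y) ∂μ‖ ≤ ε)
    (S : Finset ℕ) (hS : ∀ m ∈ S, 1 ≤ m) (η : ℝ) (hη : 0 < η) :
    Tendsto (fun q₀ => μ (goodSet μ M S η q₀)ᶜ) atTop (nhds 0) := by
  have := h.prob
  -- the measure of the good sets tends to one
  have hanti : Antitone fun q₀ => (goodSet μ M S η q₀)ᶜ := by
    intro a b hab x hx hx'
    exact hx fun q hq => hx' q (hab.trans hq)
  have hinter : μ (⋂ q₀, (goodSet μ M S η q₀)ᶜ) = 0 := by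
    have hae : ∀ᵐ x ∂μ, ∀ m ∈ S, ∀ ε : ℝ, 0 < ε → ∃ Q : ℕ, ∀ q, Q ≤ q → ∀ i, i ≤ 2 ^ q →
        ‖avg (M q) (2 ^ q) (fun y => e (m * y)) (2 ^ i * x) - ∫ y, e (m * y) ∂μ‖ ≤ ε := by
      rw [Filter.eventually_all_finset]
      exact fun m hm => hF m (hS m hm)
    rw [← compl_mem_ae_iff]
    filter_upwards [hae] with x hx
    simp only [Set.mem_compl_iff, Set.mem_iInter, not_forall, not_not]
    have h1 : ∀ m ∈ S, ∃ Q : ℕ, ∀ q, Q ≤ q → ∀ i, i ≤ 2 ^ q →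
        ‖avg (M q) (2 ^ q) (fun y => e (m * y)) (2 ^ i * x) - ∫ y, e (m * y) ∂μ‖ ≤ η :=
      fun m hm => hx m hm η hη
    choose! Q hQ using h1
    refine ⟨S.sup Q, fun q hq i hi m hm hdev => ?_⟩
    have h2 := hQ m hm q ((Finset.le_sup (f := Q) hm).trans hq) i hi
    exact absurd h2 (not_le.mpr hdev)
  rw [← hinter]
  exact tendsto_measure_iInter_atTop
    (fun q => (measurableSet_goodSet μ M S η q).compl.nullMeasurableSet) hanti
    ⟨0, measure_ne_top μ _⟩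

/-- Convergence in probability of the averages. -/
lemma tendsto_dev_of_forward {μ : Measure ℝ} (h : Inv23 μ) (M : ℕ → ℕ)
    (hF : ∀ m : ℕ, 1 ≤ m → ∀ᵐ x ∂μ, ∀ ε : ℝ, 0 < ε → ∃ Q : ℕ, ∀ q, Q ≤ q → ∀ i, i ≤ 2 ^ q →
      ‖avg (M q) (2 ^ q) (fun y => e (m * y)) (2 ^ i * x) - ∫ y, e (m * y) ∂μ‖ ≤ ε)
    (m : ℕ) (hm : 1 ≤ m) (η : ℝ) (hη : 0 < η) :
    Tendsto (fun q : ℕ => μ.real (dev μ (M q) (2 ^ q) m η)) atTop (nhds 0) := by
  have := h.prob
  have h1 := tendsto_goodSet h M hF {m} (by simpa using hm) η hη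
  have h2 := (ENNReal.tendsto_toReal ENNReal.zero_ne_top).comp h1
  rw [ENNReal.toReal_zero] at h2
  refine squeeze_zero (fun _ => measureReal_nonneg) (fun q => ?_) h2
  refine measureReal_mono ?_ (measure_ne_top μ _)
  intro x hx hx'
  have h3 := hx' q le_rfl 0 (Nat.zero_le _) m (mem_singleton_self m)
  rw [pow_zero, one_mul] at h3
  exact h3 hx

theorem past_of_forward {μ : Measure ℝ} (h : Inv23 μ) (M : ℕ → ℕ)
    (hF : ∀ m : ℕ, 1 ≤ m → ∀ᵐ x ∂μ, ∀ ε : ℝ, 0 < ε → ∃ Q : ℕ, ∀ q, Q ≤ q → ∀ i, i ≤ 2 ^ q →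
      ‖avg (M q) (2 ^ q) (fun y => e (m * y)) (2 ^ i * x) - ∫ y, e (m * y) ∂μ‖ ≤ ε)
    (S : Finset ℕ) (hS : ∀ m ∈ S, 1 ≤ m) (η : ℝ) (hη : 0 < η) :
    ∃ q₀ : ℕ, ∀ n : ℕ, 3 / 4 ≤ μ.real {x | ∀ q, q₀ ≤ q → ∀ i, i ≤ n → i ≤ 5 * 2 ^ q →
      ∀ m ∈ S, Int.fract (2 ^ (n - i) * x) ∉ dev μ (M q) (2 ^ q) m η} := by
  have := h.prob
  have htend := tendsto_goodSet h M hF S hS η hη
  have h32 : (0 : ENNReal) < ENNReal.ofReal (1 / 32) := by
    rw [ENNReal.ofReal_pos]; norm_num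
  obtain ⟨q₀, hq₀⟩ := (htend.eventually (gt_mem_nhds h32)).exists
  set A := goodSet μ M S η q₀ with hA
  have hAm : MeasurableSet A := measurableSet_goodSet μ M S η q₀
  have hAr : μ.real Aᶜ ≤ 1 / 32 := by
    rw [measureReal_def]
    have := ENNReal.toReal_mono ENNReal.ofReal_ne_top hq₀.le
    rwa [ENNReal.toReal_ofReal (by norm_num)] at this
  refine ⟨q₀, fun n => ?_⟩
  obtain ⟨hPm, hP⟩ := maximal_ineq h.two hAm n
  set Bd := pastBad (fun x : ℝ => Int.fract (2 * x)) A n with hBd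
  have hsub : ∀ x ∈ Set.Ico (0 : ℝ) 1, x ∈ A → x ∉ Bd → ∀ q, q₀ ≤ q → ∀ i, i ≤ n →
      i ≤ 5 * 2 ^ q → ∀ m ∈ S, Int.fract (2 ^ (n - i) * x) ∉ dev μ (M q) (2 ^ q) m η := by
    intro x hx hxA hxB q hq i hin hi m hm
    rw [fract_mem_dev]
    by_cases hc : n - i ≤ 2 ^ q
    · exact hxA q hq (n - i) hc m hm
    · have hl : i + 2 ^ q ≤ n := by omega
      have hl1 : 1 ≤ i + 2 ^ q := le_add_left Nat.one_le_two_pow
      have hex : ∃ u ∈ Ico (n - (i + 2 ^ q)) (n - i),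
          (fun x : ℝ => Int.fract (2 * x))^[u] x ∈ A := by
        by_contra hno
        push Not at hno
        apply hxB
        classical
        refine ⟨i + 2 ^ q, hl1, hl, ?_⟩
        have h3 : Ico (n - (i + 2 ^ q)) (n - i) ⊆ (Ico (n - (i + 2 ^ q)) n).filter
            fun u => (fun x : ℝ => Int.fract (2 * x))^[u] x ∉ A := by
          intro u hu
          rw [mem_filter, mem_Ico]
          have := mem_Ico.mp hu
          exact ⟨⟨this.1, by omega⟩, hno u hu⟩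
        have h4 := card_le_card h3
        rw [Nat.card_Ico] at h4
        have h5 : n - i - (n - (i + 2 ^ q)) = 2 ^ q := by omega
        rw [h5] at h4
        refine le_trans ?_ (Nat.mul_le_mul_left 7 (le_trans h4 (le_of_eq ?_)))
        · omega
        · congr
      obtain ⟨u, hu, huA⟩ := hex
      rw [mem_Ico] at hu
      rw [iterate_fract_two u x hx] at huA
      have h6 := huA q hq (n - i - u) (by omega) m hm
      rw [← fract_mem_dev, fract_two_pow_fract, fract_mem_dev] at h6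
      rwa [show n - i - u + u = n - i by omega] at h6
  have h7 : μ.real {x | ∀ q, q₀ ≤ q → ∀ i, i ≤ n → i ≤ 5 * 2 ^ q →
      ∀ m ∈ S, Int.fract (2 ^ (n - i) * x) ∉ dev μ (M q) (2 ^ q) m η}ᶜ ≤
      μ.real (Aᶜ ∪ Bd) := by
    refine ENNReal.toReal_mono (measure_ne_top μ _) (measure_mono_ae ?_)
    filter_upwards [h.supp] with x hx hxc
    by_contra hcon
    have hcon' : x ∈ A ∧ x ∉ Bd := by
      constructor
      · by_contra h8
        exact hcon (Or.inl h8)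
      · exact fun h8 => hcon (Or.inr h8)
    exact hxc (hsub x hx hcon'.1 hcon'.2)
  have h8 : μ.real (Aᶜ ∪ Bd) ≤ 1 / 4 := by
    refine (measureReal_union_le _ _).trans ?_
    linarith
  have hmeasG : MeasurableSet {x : ℝ | ∀ q, q₀ ≤ q → ∀ i, i ≤ n → i ≤ 5 * 2 ^ q →
      ∀ m ∈ S, Int.fract (2 ^ (n - i) * x) ∉ dev μ (M q) (2 ^ q) m η} := by
    have e1 : {x : ℝ | ∀ q, q₀ ≤ q → ∀ i, i ≤ n → i ≤ 5 * 2 ^ q →
        ∀ m ∈ S, Int.fract (2 ^ (n - i) * x) ∉ dev μ (M q) (2 ^ q) m η} =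
        ⋂ q : ℕ, ⋂ (_ : q₀ ≤ q), ⋂ i : ℕ, ⋂ (_ : i ≤ n), ⋂ (_ : i ≤ 5 * 2 ^ q), ⋂ m ∈ S,
          (fun x : ℝ => Int.fract (2 ^ (n - i) * x)) ⁻¹' (dev μ (M q) (2 ^ q) m η)ᶜ := by
      ext x
      simp only [Set.mem_ofPred_eq, Set.mem_iInter, Set.mem_preimage, Set.mem_compl_iff]
    rw [e1]
    refine MeasurableSet.iInter fun q => MeasurableSet.iInter fun _ => MeasurableSet.iInter
      fun i => MeasurableSet.iInter fun _ => MeasurableSet.iInter fun _ =>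
      Finset.measurableSet_biInter _ fun m _ => ?_
    exact (measurable_fract.comp (measurable_const_mul _)) (measurableSet_dev μ _ _ _ _).compl
  have h9 := probReal_compl_eq_one_sub hmeasG (μ := μ)
  rw [h9] at h7
  linarith

end Pool.Agent.Helper61.FR
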