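import Mathlib
import Pool.Agent.Helper61.FR.Core
import Pool.Agent.Helper61.FR.Stage3
import Pool.Agent.Helper61.FR.Forward

/-!
# Moving averages force Lebesgue measure
-/

set_option autoImplicit false

open MeasureTheory Finset Filter

namespace Pool.Agent.Helper61.FR

/-- Let `μ` be a `×2, ×3`-invariant probability measure without atoms.  If for each character and
almost every `x` the averages over the boxes `{2 ^ i 3 ^ k : i < M q, k < 2 ^ q}` at the moving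
points `2 ^ j x` converge to the mean uniformly in `j ≤ 2 ^ q`, then `μ` is Lebesgue measure. -/
theorem core_forward {μ : Measure ℝ} (h : Inv23 μ) (h0 : ∀ x, μ {x} = 0) (M : ℕ → ℕ)
    (hM : ∀ q, 200 ≤ q → 1 ≤ M q ∧ 200 * M q ≤ q)
    (hF : ∀ m : ℕ, 1 ≤ m → ∀ᵐ x ∂μ, ∀ ε : ℝ, 0 < ε → ∃ Q : ℕ, ∀ q, Q ≤ q → ∀ i, i ≤ 2 ^ q →
      ‖avg (M q) (2 ^ q) (fun y => e (m * y)) (2 ^ i * x) - ∫ y, e (m * y) ∂μ‖ ≤ ε)
    (m : ℕ) (hm : 1 ≤ m) : ∫ y, e (m * y) ∂μ = 0 := by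
  by_contra hφ
  have := h.prob
  obtain ⟨s, hs, hent⟩ := exists_small_entropy h M hM m hm hφ
    (tendsto_dev_of_forward h M hF m hm _ (by have := norm_pos_iff.mpr hφ; positivity))
  obtain ⟨U, hUr, hUc, hUm⟩ := exists_thin (profile_pr h) s hs hent
  obtain ⟨S, η, hη, hS1, hSt⟩ := typical h (20 * s) U hUm
  obtain ⟨r, hr⟩ : ∃ r, r = 20 * s := ⟨_, rfl⟩
  rw [← hr] at hUr hUc hUm hSt
  -- the typical points
  set G : ℕ → Set ℝ := fun q => {x | ∀ m ∈ S, x ∉ dev μ (M q) (2 ^ q) m η} with hG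
  have hGp : ∀ q x, Int.fract x ∈ G q ↔ x ∈ G q := by
    intro q x
    show (∀ m ∈ S, _) ↔ (∀ m ∈ S, _)
    refine forall₂_congr fun m _ => not_congr (fract_mem_dev μ _ _ _ _ _)
  obtain ⟨q₁, hq₁⟩ := past_of_forward h M hF S hS1 η hη
  obtain ⟨q₀, hq₀⟩ : ∃ q₀, q₀ = q₁ + 200 + 8 * r := ⟨_, rfl⟩
  have hc := stage3' h q₀ r M (by omega) (fun q hq => by
      have := (hM q (by omega)).2
      omega) G hGp ?_ ?_
  · exact false_of_arcs h0 hc
  · intro q hq n' d τ x h1 h2 hd hτ hx hx'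
    have hMq := (hM q (by omega)).1
    have h2q : 1 ≤ 2 ^ q := Nat.one_le_two_pow
    exact not_both_typical r U hUc (by omega) q (M q) n' hMq h1 h2 d hd τ x hτ
      (hSt (M q) (2 ^ q) hMq h2q x hx) (hSt (M q) (2 ^ q) hMq h2q _ hx')
  · intro n
    refine (hq₁ n).trans (measureReal_mono ?_ (measure_ne_top μ _))
    intro x hx q hq i hin hi m hm
    exact hx q (by omega) i hin hi m hm

end Pool.Agent.Helper61.FR
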