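import Mathlib
import Pool.Agent.Helper61.FR.Circle
import Pool.Agent.Helper61.FR.CoreF
import Pool.Agent.Helper61.FR.Overlap

/-!
# Moving averages on the circle
-/

set_option autoImplicit false

open MeasureTheory Finset Filter

namespace Pool.Agent.Helper61.FR

/-- `A_q e_m (2 ^ i x) → c` uniformly in `i ≤ 2 ^ q` -/
def Moving (M : ℕ → ℕ) (m : ℤ) (c : ℂ) (x : AddCircle (1 : ℝ)) : Prop :=
  ∀ ε : ℝ, 0 < ε → ∃ Q : ℕ, ∀ q, Q ≤ q → ∀ i, i ≤ 2 ^ q →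
    ‖cavg (M q) (2 ^ q) m ((2 ^ i : ℕ) • x) - c‖ ≤ ε

lemma moving_iff (M : ℕ → ℕ) (m : ℤ) (c : ℂ) (x : AddCircle (1 : ℝ)) :
    Moving M m c x ↔ ∀ k : ℕ, ∃ Q : ℕ, ∀ q, Q ≤ q → ∀ i, i ≤ 2 ^ q →
      ‖cavg (M q) (2 ^ q) m ((2 ^ i : ℕ) • x) - c‖ ≤ 1 / (k + 1) := by
  constructor
  · exact fun h k => h _ (by positivity)
  · intro h ε hε
    obtain ⟨k, hk⟩ := exists_nat_one_div_lt hε
    obtain ⟨Q, hQ⟩ := h k
    exact ⟨Q, fun q hq i hi => (hQ q hq i hi).trans hk.le⟩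

lemma measurableSet_moving (M : ℕ → ℕ) (m : ℤ) (c : ℂ) :
    MeasurableSet {x : AddCircle (1 : ℝ) | Moving M m c x} := by
  have e1 : {x : AddCircle (1 : ℝ) | Moving M m c x} = ⋂ k : ℕ, ⋃ Q : ℕ, ⋂ q : ℕ, ⋂ (_ : Q ≤ q),
      ⋂ i : ℕ, ⋂ (_ : i ≤ 2 ^ q), {x : AddCircle (1 : ℝ) |
        ‖cavg (M q) (2 ^ q) m ((2 ^ i : ℕ) • x) - c‖ ≤ 1 / (k + 1)} := by
    ext x
    simp only [Set.mem_ofPred_eq, moving_iff, Set.mem_iInter, Set.mem_iUnion]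
  rw [e1]
  refine MeasurableSet.iInter fun k => MeasurableSet.iUnion fun Q => MeasurableSet.iInter fun q =>
    MeasurableSet.iInter fun _ => MeasurableSet.iInter fun i => MeasurableSet.iInter fun _ => ?_
  refine measurableSet_le (Continuous.measurable ?_) measurable_const
  exact ((continuous_cavg _ _ _).comp (continuous_nsmul _)).sub continuous_const |>.norm

lemma cavg_smul_coe (M N m i : ℕ) (y : ℝ) :
    cavg M N m ((2 ^ i : ℕ) • (y : AddCircle (1 : ℝ))) =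
      avg M N (fun z => e (m * z)) (2 ^ i * y) := by
  rw [← cavg_coe, ← AddCircle.coe_nsmul, nsmul_eq_mul]
  push_cast
  rfl

lemma ae_moving_iff {ν : Measure (AddCircle (1 : ℝ))} {μ : Measure ℝ}
    (hν : μ.map (fun y : ℝ => (y : AddCircle (1 : ℝ))) = ν) (M : ℕ → ℕ) (m : ℕ) (c : ℂ) :
    (∀ᵐ x ∂ν, Moving M m c x) ↔ ∀ᵐ y ∂μ, ∀ ε : ℝ, 0 < ε → ∃ Q : ℕ, ∀ q, Q ≤ q → ∀ i, i ≤ 2 ^ q →
      ‖avg (M q) (2 ^ q) (fun y => e (m * y)) (2 ^ i * y) - c‖ ≤ ε := by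
  rw [← hν, ae_map_iff measurable_coe_circle.aemeasurable (measurableSet_moving M m c)]
  refine eventually_congr (Eventually.of_forall fun y => ?_)
  unfold Moving
  simp only [cavg_smul_coe]

theorem circle_forward {ν : Measure (AddCircle (1 : ℝ))} [IsProbabilityMeasure ν]
    (h2 : MeasurePreserving (fun x : AddCircle (1 : ℝ) => (2 : ℕ) • x) ν ν)
    (h3 : MeasurePreserving (fun x : AddCircle (1 : ℝ) => (3 : ℕ) • x) ν ν)
    (h0 : ∀ x, ν {x} = 0) (M : ℕ → ℕ) (hM : ∀ q, 200 ≤ q → 1 ≤ M q ∧ 200 * M q ≤ q)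
    (hF : ∀ m : ℕ, 1 ≤ m → ∀ᵐ x ∂ν, Moving M m (∫ y, (fourier m y : ℂ) ∂ν) x)
    (m : ℕ) (hm : 1 ≤ m) : ∫ x, (fourier m x : ℂ) ∂ν = 0 := by
  obtain ⟨μ, hμ, hν, hat⟩ := exists_inv23 ν h2 h3
  have hc : ∀ m : ℕ, ∫ x, (fourier m x : ℂ) ∂ν = ∫ y, e (m * y) ∂μ := by
    intro m
    rw [integral_fourier_eq hν (m : ℤ)]
    unfold cf
    push_cast
    rfl
  have := core_forward hμ (hat h0) M hM (fun m hm => by
    have h4 := (ae_moving_iff hν M m _).mp (hF m hm)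
    rw [hc m] at h4
    exact h4) m hm
  rw [hc m]
  exact this

theorem circle_moving {ν : Measure (AddCircle (1 : ℝ))} [IsProbabilityMeasure ν]
    (h2 : MeasurePreserving (fun x : AddCircle (1 : ℝ) => (2 : ℕ) • x) ν ν)
    (h3 : MeasurePreserving (fun x : AddCircle (1 : ℝ) => (3 : ℕ) • x) ν ν) (m : ℕ)
    (hW : ∀ η : ℝ, 0 < η → Summable fun q : ℕ => (2 ^ q / q : ℝ) *
      ν.real {x | η < ‖cavg (q / 200) (2 ^ q) m x - ∫ y, (fourier m y : ℂ) ∂ν‖}) :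
    ∀ᵐ x ∂ν, Moving (fun q => q / 200) m (∫ y, (fourier m y : ℂ) ∂ν) x := by
  obtain ⟨μ, hμ, hν, -⟩ := exists_inv23 ν h2 h3
  rw [ae_moving_iff hν]
  have hc : ∫ x, (fourier m x : ℂ) ∂ν = ∫ y, e (m * y) ∂μ := by
    rw [integral_fourier_eq hν (m : ℤ)]
    unfold cf
    push_cast
    rfl
  rw [hc]
  refine forward_of_summable hμ m fun η hη => ?_
  have := hW η hη
  simp only [real_dev_eq hν] at this
  exact this

/-- Chebyshev -/
theorem summable_of_summable_moment {ν : Measure (AddCircle (1 : ℝ))} [IsProbabilityMeasure ν]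
    (M : ℕ → ℕ) (m : ℤ) (c : ℂ) (p : ℝ) (hp : 0 < p)
    (hV : Summable fun q : ℕ => (2 ^ q / q : ℝ) * ∫ x, ‖cavg (M q) (2 ^ q) m x - c‖ ^ p ∂ν)
    (η : ℝ) (hη : 0 < η) :
    Summable fun q : ℕ => (2 ^ q / q : ℝ) * ν.real {x | η < ‖cavg (M q) (2 ^ q) m x - c‖} := by
  have hηp : 0 < η ^ p := Real.rpow_pos_of_pos hη p
  refine Summable.of_nonneg_of_le (fun q => by positivity) (fun q => ?_) (hV.mul_left (1 / η ^ p))
  have hint : Integrable (fun x => ‖cavg (M q) (2 ^ q) m x - c‖ ^ p) ν := by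
    refine Helper17.TranslM.integrable_cont ν ?_
    exact ((continuous_cavg _ _ _).sub continuous_const).norm.rpow_const (fun x => Or.inr hp.le)
  have h1 := mul_meas_ge_le_integral_of_nonneg
    (Eventually.of_forall fun x => by positivity) hint (η ^ p)
  have h2 : ν.real {x | η < ‖cavg (M q) (2 ^ q) m x - c‖} ≤
      ν.real {x | η ^ p ≤ ‖cavg (M q) (2 ^ q) m x - c‖ ^ p} := by
    refine measureReal_mono ?_
    intro x hx
    exact Real.rpow_le_rpow hη.le (le_of_lt hx) hp.le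
  have h3 : ν.real {x | η < ‖cavg (M q) (2 ^ q) m x - c‖} ≤
      1 / η ^ p * ∫ x, ‖cavg (M q) (2 ^ q) m x - c‖ ^ p ∂ν := by
    rw [one_div, ← div_eq_inv_mul, le_div_iff₀ hηp]
    calc _ ≤ ν.real {x | η ^ p ≤ ‖cavg (M q) (2 ^ q) m x - c‖ ^ p} * η ^ p :=
          mul_le_mul_of_nonneg_right h2 hηp.le
      _ ≤ _ := by rw [mul_comm]; exact h1
  calc _ ≤ (2 ^ q / q : ℝ) * (1 / η ^ p * ∫ x, ‖cavg (M q) (2 ^ q) m x - c‖ ^ p ∂ν) := by
        gcongr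
    _ = _ := by ring

end Pool.Agent.Helper61.FR
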