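import Mathlib

/-!
# Summability of the weighted correlations and of the variances
-/

set_option autoImplicit false

open Finset Filter

namespace Pool.Agent.Helper61.FR

/-- A rate `(1 + a + b) ^ (-1 - δ)` gives summable weighted correlations. -/
lemma summable_corr_of_rate (c : ℕ → ℕ → ℝ) (h0 : ∀ a b, 0 ≤ c a b) (C δ : ℝ) (hδ : 0 < δ)
    (h : ∀ a b, c a b ≤ C * ((1 + a + b : ℕ) : ℝ) ^ (-1 - δ)) :
    Summable fun p : ℕ × ℕ => c p.1 p.2 / (1 + p.1 + Real.log (1 + p.2)) := by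
  have hC : 0 ≤ C := by
    have := (h0 0 0).trans (h 0 0)
    simpa using this
  have hs : Summable fun n : ℕ => ((1 + n : ℕ) : ℝ) ^ (-1 - δ / 2) := by
    have h1 : Summable fun n : ℕ => (n : ℝ) ^ (-1 - δ / 2) :=
      Real.summable_nat_rpow.mpr (by linarith)
    have h2 := (summable_nat_add_iff 1).mpr h1
    refine h2.congr fun n => ?_
    rw [add_comm]
  have hp := (hs.mul_of_nonneg hs (fun n => by positivity) (fun n => by positivity)).mul_left C
  refine Summable.of_nonneg_of_le (fun p => ?_) (fun p => ?_) hp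
  · have : 0 ≤ Real.log (1 + p.2) := Real.log_nonneg (by
      have : (0 : ℝ) ≤ p.2 := Nat.cast_nonneg _
      linarith)
    exact div_nonneg (h0 _ _) (by positivity)
  · obtain ⟨a, b⟩ := p
    simp only
    have hl : 0 ≤ Real.log (1 + b) := Real.log_nonneg (by
      have : (0 : ℝ) ≤ b := Nat.cast_nonneg _
      linarith)
    have ha0 : (0 : ℝ) < ((1 + a : ℕ) : ℝ) := by positivity
    have hb0 : (0 : ℝ) < ((1 + b : ℕ) : ℝ) := by positivity
    have hab0 : (0 : ℝ) < ((1 + a + b : ℕ) : ℝ) := by positivity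
    have hab : ((1 + a + b : ℕ) : ℝ) ^ (-1 - δ) ≤
        ((1 + a : ℕ) : ℝ) ^ (-(δ / 2)) * ((1 + b : ℕ) : ℝ) ^ (-1 - δ / 2) := by
      have e1 : (-1 - δ : ℝ) = -(δ / 2) + (-1 - δ / 2) := by ring
      rw [e1, Real.rpow_add hab0]
      refine mul_le_mul ?_ ?_ (by positivity) (by positivity)
      · refine Real.rpow_le_rpow_of_nonpos ha0 ?_ (by linarith)
        exact_mod_cast (by omega : 1 + a ≤ 1 + a + b)
      · refine Real.rpow_le_rpow_of_nonpos hb0 ?_ (by linarith)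
        exact_mod_cast (by omega : 1 + b ≤ 1 + a + b)
    have e2 : ((1 + a : ℕ) : ℝ) ^ (-1 - δ / 2) = ((1 + a : ℕ) : ℝ) ^ (-(δ / 2)) / (1 + a) := by
      have e3 : (-1 - δ / 2 : ℝ) = -(δ / 2) - 1 := by ring
      rw [e3, Real.rpow_sub ha0, Real.rpow_one]
      push_cast
      rfl
    calc c a b / (1 + a + Real.log (1 + b))
        ≤ (C * (((1 + a : ℕ) : ℝ) ^ (-(δ / 2)) * ((1 + b : ℕ) : ℝ) ^ (-1 - δ / 2))) / (1 + a) := by
          apply div_le_div₀
          · positivity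
          · exact (h a b).trans (mul_le_mul_of_nonneg_left hab hC)
          · positivity
          · linarith
      _ = C * (((1 + a : ℕ) : ℝ) ^ (-1 - δ / 2) * ((1 + b : ℕ) : ℝ) ^ (-1 - δ / 2)) := by
          rw [e2]
          field_simp

/-- Tails of `∑ 1 / q ^ 2`. -/
lemma tail_sq (w : ℝ) (hw : 1 ≤ w) (T : Finset ℕ) (hT : ∀ q ∈ T, w ≤ 2 * q) :
    ∑ q ∈ T, ((q : ℝ) ^ 2)⁻¹ ≤ 4 / w := by
  obtain ⟨k, hk⟩ : ∃ k : ℕ, k + 1 = ⌈w / 2⌉₊ := by
    have : 0 < ⌈w / 2⌉₊ := Nat.ceil_pos.mpr (by linarith)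
    exact ⟨⌈w / 2⌉₊ - 1, by omega⟩
  have hk1 : w / 2 ≤ ((k + 1 : ℕ) : ℝ) := by rw [hk]; exact Nat.le_ceil _
  have hsub : T ⊆ Ioo k (T.sup id + 1) := by
    intro q hq
    rw [mem_Ioo]
    refine ⟨?_, Nat.lt_succ_of_le (Finset.le_sup (f := id) hq)⟩
    have h1 : ⌈w / 2⌉₊ ≤ q := Nat.ceil_le.mpr (by have := hT q hq; linarith)
    omega
  have h1 := sum_Ioo_inv_sq_le (α := ℝ) k (T.sup id + 1)
  calc ∑ q ∈ T, ((q : ℝ) ^ 2)⁻¹ ≤ ∑ q ∈ Ioo k (T.sup id + 1), ((q : ℝ) ^ 2)⁻¹ :=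
        sum_le_sum_of_subset_of_nonneg hsub fun _ _ _ => by positivity
    _ ≤ 2 / (k + 1) := h1
    _ ≤ 4 / w := by
        push_cast at hk1
        rw [div_le_div_iff₀ (by positivity) (by linarith)]
        linarith

/-- Interchange of the summations. -/
lemma summable_var_of_corr (c : ℕ → ℕ → ℝ) (h0 : ∀ a b, 0 ≤ c a b)
    (hs : Summable fun p : ℕ × ℕ => c p.1 p.2 / (1 + p.1 + Real.log (1 + p.2))) (V : ℕ → ℝ)
    (hV0 : ∀ q, 0 ≤ V q) (K : ℝ) (hK : 0 ≤ K)
    (hV : ∀ q, 200 ≤ q → V q ≤ K / ((q / 200 : ℕ) * (2 ^ q : ℕ)) *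
      ∑ a ∈ range (q / 200), ∑ b ∈ range (2 ^ q), c a b) :
    Summable fun q : ℕ => (2 ^ q / q : ℝ) * V q := by
  classical
  have hlog : ∀ b : ℕ, 0 ≤ Real.log (1 + b) := fun b => Real.log_nonneg (by
    have : (0 : ℝ) ≤ b := Nat.cast_nonneg _
    linarith)
  set w : ℕ × ℕ → ℝ := fun p => 1 + p.1 + Real.log (1 + p.2) with hw
  have hw1 : ∀ p, 1 ≤ w p := by
    intro p
    have h1 := hlog p.2
    have h2 : (0 : ℝ) ≤ p.1 := Nat.cast_nonneg _
    simp only [hw]
    linarith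
  rw [← summable_nat_add_iff 200]
  apply summable_of_sum_range_le (c := 1600 * K * ∑' p : ℕ × ℕ, c p.1 p.2 / w p)
  · intro q
    exact mul_nonneg (by positivity) (hV0 _)
  intro n
  -- the terms
  set B : ℕ → Finset (ℕ × ℕ) := fun q => range (q / 200) ×ˢ range (2 ^ q) with hB
  have hterm : ∀ q : ℕ, 200 ≤ q → (2 ^ q / q : ℝ) * V q ≤
      400 * K * (((q : ℝ) ^ 2)⁻¹ * ∑ p ∈ B q, c p.1 p.2) := by
    intro q hq
    have hq0 : (0 : ℝ) < q := by exact_mod_cast (by omega : 0 < q)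
    have hM2 : (q : ℝ) ≤ 400 * (q / 200 : ℕ) := by exact_mod_cast (by omega : q ≤ 400 * (q / 200))
    have hM0 : (0 : ℝ) < (q / 200 : ℕ) := by exact_mod_cast (by omega : 0 < q / 200)
    have hS0 : 0 ≤ ∑ p ∈ B q, c p.1 p.2 := sum_nonneg fun p _ => h0 _ _
    have h1 := hV q hq
    rw [← sum_product'] at h1
    calc (2 ^ q / q : ℝ) * V q ≤ (2 ^ q / q : ℝ) * (K / ((q / 200 : ℕ) * (2 ^ q : ℕ)) *
          ∑ p ∈ B q, c p.1 p.2) := by gcongr
      _ = K * (1 / (q * (q / 200 : ℕ)) * ∑ p ∈ B q, c p.1 p.2) := by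
          push_cast
          field_simp
      _ ≤ K * (400 / q ^ 2 * ∑ p ∈ B q, c p.1 p.2) := by
          have : (1 : ℝ) / (q * (q / 200 : ℕ)) ≤ 400 / q ^ 2 := by
            rw [div_le_div_iff₀ (by positivity) (by positivity)]
            nlinarith
          gcongr
      _ = _ := by
          rw [div_eq_mul_inv]; ring
  set T : Finset ℕ := (range n).image fun q => q + 200 with hT
  have e1 : ∑ q ∈ range n, (2 ^ (q + 200) / (q + 200 : ℕ) : ℝ) * V (q + 200) =
      ∑ q ∈ T, (2 ^ q / q : ℝ) * V q := by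
    rw [hT, sum_image (fun a _ b _ hab => by simpa using hab)]
  rw [e1]
  set BB : Finset (ℕ × ℕ) := T.biUnion B with hBB
  calc ∑ q ∈ T, (2 ^ q / q : ℝ) * V q
      ≤ ∑ q ∈ T, 400 * K * (((q : ℝ) ^ 2)⁻¹ * ∑ p ∈ B q, c p.1 p.2) := by
        refine sum_le_sum fun q hq => hterm q ?_
        rw [hT, mem_image] at hq
        obtain ⟨u, -, rfl⟩ := hq
        omega
    _ = 400 * K * ∑ q ∈ T, ∑ p ∈ BB, (if p ∈ B q then ((q : ℝ) ^ 2)⁻¹ * c p.1 p.2 else 0) := by
        rw [mul_sum]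
        refine sum_congr rfl fun q hq => ?_
        congr 1
        rw [← sum_filter, mul_sum]
        refine sum_congr ?_ fun _ _ => rfl
        ext p
        rw [mem_filter]
        exact ⟨fun hp => ⟨mem_biUnion.mpr ⟨q, hq, hp⟩, hp⟩, fun hp => hp.2⟩
    _ = 400 * K * ∑ p ∈ BB, c p.1 p.2 * ∑ q ∈ T.filter (fun q => p ∈ B q), ((q : ℝ) ^ 2)⁻¹ := by
        rw [sum_comm]
        congr 1
        refine sum_congr rfl fun p _ => ?_
        rw [← sum_filter, mul_sum]
        exact sum_congr rfl fun _ _ => mul_comm _ _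
    _ ≤ 400 * K * ∑ p ∈ BB, c p.1 p.2 * (4 / w p) := by
        refine mul_le_mul_of_nonneg_left (sum_le_sum fun p _ =>
          mul_le_mul_of_nonneg_left (tail_sq (w p) (hw1 p) _ fun q hq => ?_) (h0 _ _))
          (by positivity)
        rw [mem_filter] at hq
        obtain ⟨-, hq⟩ := hq
        rw [hB, mem_product, mem_range, mem_range] at hq
        have h1 : p.1 + 1 ≤ q := by omega
        have h1' : (p.1 : ℝ) + 1 ≤ q := by exact_mod_cast h1
        have h2 : (1 + p.2 : ℝ) ≤ 2 ^ q := by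
          have : 1 + p.2 ≤ 2 ^ q := by omega
          exact_mod_cast this
        have h3 : Real.log (1 + p.2) ≤ q := by
          have h4 := Real.log_le_log (by positivity) h2
          rw [Real.log_pow] at h4
          have h5 : Real.log 2 ≤ 1 := by
            have := Real.log_two_lt_d9
            linarith
          have h6 : (0 : ℝ) ≤ q := Nat.cast_nonneg _
          nlinarith
        simp only [hw]
        linarith
    _ = 1600 * K * ∑ p ∈ BB, c p.1 p.2 / w p := by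
        rw [mul_sum, mul_sum]
        refine sum_congr rfl fun p _ => ?_
        ring
    _ ≤ 1600 * K * ∑' p : ℕ × ℕ, c p.1 p.2 / w p := by
        refine mul_le_mul_of_nonneg_left (hs.sum_le_tsum BB fun p _ => ?_) (by positivity)
        exact div_nonneg (h0 _ _) (by linarith [hw1 p])

end Pool.Agent.Helper61.FR
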