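import Mathlib
import Pool.Agent.Helper61.FR.Diff
import Pool.Agent.Helper61.FR.Weights
import Pool.Agent.Helper17.KW.CoreG

/-!
# Diffusive rigidity for measures on `[0, 1)`
-/

set_option autoImplicit false

open MeasureTheory Finset Filter

namespace Pool.Agent.Helper61.FR

/-- correlation of the character of frequency `m` along `×3` at time `b` -/
noncomputable def cc (μ : Measure ℝ) (m b : ℕ) : ℂ :=
  cf μ (m * (3 ^ b - 1)) - (‖cf μ m‖ ^ 2 : ℝ)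

lemma cf_zero {μ : Measure ℝ} (h : Inv23 μ) : cf μ 0 = 1 := by
  have := h.prob
  unfold cf
  simp [e]

lemma norm_cf_le {μ : Measure ℝ} (h : Inv23 μ) (n : ℤ) : ‖cf μ n‖ ≤ 1 := by
  have := h.prob
  unfold cf
  refine (norm_integral_le_integral_norm _).trans (le_of_eq ?_)
  simp [norm_e]

/-- The variance of the averages along `×3` in terms of the correlations. -/
theorem variance_one {μ : Measure ℝ} (h : Inv23 μ) (N m : ℕ) (hN : 1 ≤ N) :
    ∫ x, ‖avg 1 N (fun y => e (m * y)) x - ∫ y, e (m * y) ∂μ‖ ^ 2 ∂μ =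
      (2 * ∑ b ∈ range N, (1 - (b : ℝ) / N) * (cc μ m b).re - (1 - ‖cf μ m‖ ^ 2)) / N := by
  have hN0 : (0 : ℝ) < N := by exact_mod_cast hN
  rw [variance_eq h 1 N m le_rfl hN]
  set g : ℕ → ℝ := fun b => (cf μ (m * (3 ^ b - 1))).re with hg
  have h1 : ∑ i ∈ range 1, ∑ k ∈ range N, ∑ i' ∈ range 1, ∑ k' ∈ range N,
      (cf μ (m * (2 ^ i * 3 ^ k - 2 ^ i' * 3 ^ k'))).re =
      ∑ k ∈ range N, ∑ l ∈ range N, g ((k - l) + (l - k)) := by
    rw [sum_range_one]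
    refine sum_congr rfl fun k _ => ?_
    rw [sum_range_one]
    refine sum_congr rfl fun l _ => ?_
    simp only [hg, pow_zero, one_mul]
    rcases le_total l k with hk | hk
    · obtain ⟨b, rfl⟩ := Nat.exists_eq_add_of_le hk
      have e1 : (l + b - l) + (l - (l + b)) = b := by omega
      have e2 : ((m : ℤ) * (3 ^ (l + b) - 3 ^ l)) = 2 ^ 0 * 3 ^ l * (m * (3 ^ b - 1)) := by ring
      rw [e1, e2, cf_mul h]
    · obtain ⟨b, rfl⟩ := Nat.exists_eq_add_of_le hk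
      have e1 : (k - (k + b)) + (k + b - k) = b := by omega
      have e2 : ((m : ℤ) * (3 ^ k - 3 ^ (k + b))) = 2 ^ 0 * 3 ^ k * (-(m * (3 ^ b - 1))) := by ring
      rw [e1, e2, cf_mul h, cf_neg]
      simp
  rw [h1, sum_sum_dist]
  have h0 : g 0 = 1 := by
    simp only [hg, pow_zero, sub_self, mul_zero]
    rw [cf_zero h]
    simp
  have h2 : ∀ b, (cc μ m b).re = g b - ‖cf μ m‖ ^ 2 := by
    intro b
    unfold cc
    rw [Complex.sub_re, Complex.ofReal_re]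
  have h3 : ∑ b ∈ range N, ((N : ℝ) - b) = N * (N + 1) / 2 := by
    clear h1
    induction N with
    | zero => simp
    | succ n ih =>
      rcases Nat.eq_zero_or_pos n with hn | hn
      · subst hn; simp
      · have ih' := ih hn (by exact_mod_cast hn)
        have h4 : ∀ b ∈ range n, (((n + 1 : ℕ) : ℝ) - b) = ((n : ℝ) - b) + 1 := by
          intro b _; push_cast; ring
        rw [sum_range_succ, sum_congr rfl h4, sum_add_distrib, ih']
        simp only [sum_const, card_range, nsmul_eq_mul, mul_one]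
        push_cast
        ring
  have h4 : ∑ b ∈ range N, (1 - (b : ℝ) / N) * (cc μ m b).re =
      (∑ b ∈ range N, ((N : ℝ) - b) * g b - ‖cf μ m‖ ^ 2 * (N * (N + 1) / 2)) / N := by
    rw [← h3, mul_sum, ← sum_sub_distrib, sum_div]
    refine sum_congr rfl fun b _ => ?_
    rw [h2]
    field_simp
  rw [h4, h0]
  push_cast
  field_simp
  ring

/-- Chebyshev -/
theorem cheb {μ : Measure ℝ} (h : Inv23 μ) (N m : ℕ) (η : ℝ) (hη : 0 < η) :
    μ.real (dev μ 1 N m η) ≤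
      (∫ x, ‖avg 1 N (fun y => e (m * y)) x - ∫ y, e (m * y) ∂μ‖ ^ 2 ∂μ) / η ^ 2 := by
  have := h.prob
  have hint : Integrable (fun x => ‖avg 1 N (fun y => e (m * y)) x -
      ∫ y, e (m * y) ∂μ‖ ^ 2) μ := by
    have h4 : Integrable (fun x => avg 1 N (fun y => e (m * y)) x -
        ∫ y, e (m * y) ∂μ) μ := (integrable_avg h 1 N m).sub (integrable_const _)
    refine Integrable.of_bound (h4.1.norm.pow 2) (2 ^ 2) (Eventually.of_forall fun x => ?_)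
    rw [Real.norm_of_nonneg (by positivity)]
    apply pow_le_pow_left₀ (norm_nonneg _)
    have h5 : ‖avg 1 N (fun y => e (m * y)) x‖ ≤ 1 := by
      unfold avg
      rw [norm_div]
      refine div_le_one_of_le₀ ?_ (norm_nonneg _)
      refine (norm_sum_le _ _).trans ?_
      simp only [range_one, sum_singleton]
      refine (norm_sum_le _ _).trans ?_
      simp [norm_e]
    have h6 : ‖∫ y, e (m * y) ∂μ‖ ≤ 1 := by
      refine (norm_integral_le_integral_norm _).trans ?_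
      simp [norm_e]
    exact (norm_sub_le _ _).trans (by linarith)
  have h2 := mul_meas_ge_le_integral_of_nonneg (μ := μ)
    (f := fun x => ‖avg 1 N (fun y => e (m * y)) x - ∫ y, e (m * y) ∂μ‖ ^ 2)
    (Eventually.of_forall fun x => by positivity) hint (η ^ 2)
  have h3 : μ.real (dev μ 1 N m η) ≤ μ.real {x | η ^ 2 ≤
      ‖avg 1 N (fun y => e (m * y)) x - ∫ y, e (m * y) ∂μ‖ ^ 2} := by
    refine measureReal_mono ?_ (measure_ne_top μ _)
    intro x hx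
    exact pow_le_pow_left₀ hη.le (le_of_lt hx) 2
  have hη2 : 0 < η ^ 2 := by positivity
  rw [le_div_iff₀ hη2, mul_comm]
  exact (mul_le_mul_of_nonneg_left h3 hη2.le).trans h2

lemma re_cc_le {μ : Measure ℝ} (m b : ℕ) : (cc μ m b).re ≤ ‖cc μ m b‖ := Complex.re_le_norm _

lemma variance_one_le {μ : Measure ℝ} (h : Inv23 μ) (N m : ℕ) (hN : 1 ≤ N) (S : ℝ)
    (hS : ∑ b ∈ range N, (1 - (b : ℝ) / N) * (cc μ m b).re ≤ S) :
    ∫ x, ‖avg 1 N (fun y => e (m * y)) x - ∫ y, e (m * y) ∂μ‖ ^ 2 ∂μ ≤ 2 * S / N := by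
  rw [variance_one h N m hN]
  have h1 : ‖cf μ m‖ ≤ 1 := norm_cf_le h m
  have h2 : 0 ≤ 1 - ‖cf μ m‖ ^ 2 := by nlinarith [norm_nonneg (cf μ m)]
  gcongr
  linarith

/-- comparison of powers of a number `≥ 1 / 2` -/
lemma rpow_le_mul_rpow {x θ θ' : ℝ} (hx : 1 / 2 ≤ x) (h : θ ≤ θ') :
    x ^ θ ≤ 2 ^ (θ' - θ) * x ^ θ' := by
  have hx0 : 0 < x := by linarith
  have h1 : (1 : ℝ) ≤ (2 * x) ^ (θ' - θ) := Real.one_le_rpow (by linarith) (by linarith)
  rw [Real.mul_rpow (by norm_num) hx0.le] at h1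
  have h2 : 2 ^ (θ' - θ) * x ^ θ' = x ^ θ * (2 ^ (θ' - θ) * x ^ (θ' - θ)) := by
    rw [Real.rpow_sub hx0]
    have : x ^ θ ≠ 0 := (Real.rpow_pos_of_pos hx0 θ).ne'
    field_simp
  rw [h2]
  have h3 : 0 ≤ x ^ θ := Real.rpow_nonneg hx0.le θ
  nlinarith

lemma half_le_log (b : ℕ) : 1 / 2 ≤ Real.log (b + 2) := by
  have h5 : Real.log 2 ≤ Real.log (b + 2) := by
    apply Real.log_le_log (by norm_num)
    have : (0 : ℝ) ≤ b := Nat.cast_nonneg _
    linarith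
  have := Real.log_two_gt_d9
  linarith

/-- Cesàro sums of the real parts of the correlations bounded above by a small power of the
logarithm. -/
theorem cf_eq_zero_of_cesaro' {μ : Measure ℝ} (h : Inv23 μ) (h0 : ∀ x, μ {x} = 0) (θ : ℝ)
    (hθ0 : 0 ≤ θ) (hθ : θ < 1 / 2)
    (hS : ∀ m : ℕ, 1 ≤ m → ∃ C : ℝ, ∀ N : ℕ, 1 ≤ N →
      ∑ b ∈ range N, (1 - (b : ℝ) / N) * (cc μ m b).re ≤ C * Real.log (N + 1) ^ θ)
    (m : ℕ) (hm : 1 ≤ m) : cf μ m = 0 := by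
  have h1 := Pool.Agent.Helper17.KW.core_tail_gen (γ := 5 / 4 + θ / 2) (by linarith) (by linarith)
    h h0 (fun m hm η hη => ?_) m hm
  · rw [← h1]
    unfold cf
    simp
  obtain ⟨C, hC⟩ := hS m hm
  have hs : Summable fun q : ℕ => (4 * |C| / η ^ 2) * (q : ℝ) ^ (-(5 / 4 - θ / 2) : ℝ) := by
    apply Summable.mul_left
    exact Real.summable_nat_rpow.mpr (by linarith)
  refine Summable.of_nonneg_of_le (fun q => by positivity) (fun q => ?_) hs
  rcases Nat.eq_zero_or_pos q with hq | hq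
  · subst hq
    rw [Nat.cast_zero, Real.zero_rpow (by linarith), Real.zero_rpow (by linarith)]
    simp
  have hq0 : (0 : ℝ) < q := by exact_mod_cast hq
  have hη2 : 0 < η ^ 2 := by positivity
  have h2 := hC (2 ^ q) Nat.one_le_two_pow
  have hlog : Real.log (((2 ^ q : ℕ) : ℝ) + 1) ^ θ ≤ 2 * (q : ℝ) ^ θ := by
    have h3 : (((2 ^ q : ℕ) : ℝ) + 1) ≤ 2 ^ (2 * q) := by
      have h4 : 2 ^ q + 1 ≤ 2 ^ (2 * q) := by
        have h5 : 2 ^ (2 * q) = 2 ^ q * 2 ^ q := by rw [← pow_add]; congr 1; omega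
        have h6 : 2 ≤ 2 ^ q := by
          calc 2 = 2 ^ 1 := rfl
            _ ≤ 2 ^ q := Nat.pow_le_pow_right (by norm_num) (by omega)
        rw [h5]
        nlinarith
      exact_mod_cast h4
    have h4 : Real.log (((2 ^ q : ℕ) : ℝ) + 1) ≤ 2 * q := by
      have h5 := Real.log_le_log (by positivity) h3
      rw [Real.log_pow] at h5
      have h6 : Real.log 2 ≤ 1 := by
        have := Real.log_two_lt_d9
        linarith
      refine h5.trans ?_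
      push_cast
      nlinarith
    have h5 : 0 ≤ Real.log (((2 ^ q : ℕ) : ℝ) + 1) := Real.log_nonneg (by
      have : (0 : ℝ) ≤ ((2 ^ q : ℕ) : ℝ) := Nat.cast_nonneg _
      linarith)
    calc Real.log (((2 ^ q : ℕ) : ℝ) + 1) ^ θ ≤ (2 * q : ℝ) ^ θ := Real.rpow_le_rpow h5 h4 hθ0
      _ = 2 ^ θ * (q : ℝ) ^ θ := Real.mul_rpow (by norm_num) hq0.le
      _ ≤ 2 * (q : ℝ) ^ θ := by
          have h6 : (2 : ℝ) ^ θ ≤ 2 ^ (1 : ℝ) :=
            Real.rpow_le_rpow_of_exponent_le (by norm_num) (by linarith)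
          rw [Real.rpow_one] at h6
          gcongr
  have hlog0 : 0 ≤ Real.log (((2 ^ q : ℕ) : ℝ) + 1) ^ θ := by
    apply Real.rpow_nonneg
    exact Real.log_nonneg (by
      have : (0 : ℝ) ≤ ((2 ^ q : ℕ) : ℝ) := Nat.cast_nonneg _
      linarith)
  have hV := variance_one_le h (2 ^ q) m Nat.one_le_two_pow (|C| * (2 * (q : ℝ) ^ θ))
    (h2.trans (by
      calc C * Real.log (((2 ^ q : ℕ) : ℝ) + 1) ^ θ
          ≤ |C| * Real.log (((2 ^ q : ℕ) : ℝ) + 1) ^ θ :=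
            mul_le_mul_of_nonneg_right (le_abs_self C) hlog0
        _ ≤ _ := mul_le_mul_of_nonneg_left hlog (abs_nonneg C)))
  have hD := (cheb h (2 ^ q) m η hη).trans (div_le_div_of_nonneg_right hV hη2.le)
  have e1 : (q : ℝ) ^ (-(5 / 4 - θ / 2) : ℝ) = (q : ℝ) ^ θ / (q : ℝ) ^ (5 / 4 + θ / 2 : ℝ) := by
    rw [← Real.rpow_sub hq0]
    congr 1
    ring
  have hq11 : 0 < (q : ℝ) ^ (5 / 4 + θ / 2 : ℝ) := Real.rpow_pos_of_pos hq0 _
  calc (2 ^ q / (q : ℝ) ^ (5 / 4 + θ / 2 : ℝ)) * μ.real (dev μ 1 (2 ^ q) m η)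
      ≤ (2 ^ q / (q : ℝ) ^ (5 / 4 + θ / 2 : ℝ)) *
        (2 * (|C| * (2 * (q : ℝ) ^ θ)) / ((2 ^ q : ℕ) : ℝ) / η ^ 2) := by gcongr
    _ = (4 * |C| / η ^ 2) * (q : ℝ) ^ (-(5 / 4 - θ / 2) : ℝ) := by
        rw [e1]
        push_cast
        field_simp
        ring

theorem cf_eq_zero_of_cesaro {μ : Measure ℝ} (h : Inv23 μ) (h0 : ∀ x, μ {x} = 0) (θ : ℝ)
    (hθ : θ < 1 / 2)
    (hS : ∀ m : ℕ, 1 ≤ m → ∃ C : ℝ, ∀ N : ℕ, 1 ≤ N →
      ∑ b ∈ range N, (1 - (b : ℝ) / N) * (cc μ m b).re ≤ C * Real.log (N + 1) ^ θ)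
    (m : ℕ) (hm : 1 ≤ m) : cf μ m = 0 := by
  refine cf_eq_zero_of_cesaro' h h0 (max θ 0) (le_max_right _ _) (max_lt hθ (by norm_num))
    (fun m hm => ?_) m hm
  obtain ⟨C, hC⟩ := hS m hm
  refine ⟨|C| * 2 ^ (max θ 0 - θ), fun N hN => (hC N hN).trans ?_⟩
  obtain ⟨n, rfl⟩ : ∃ n, N = n + 1 := ⟨N - 1, by omega⟩
  have h6 : (((n + 1 : ℕ) : ℝ) + 1) = n + 2 := by push_cast; ring
  rw [h6]
  have h7 := rpow_le_mul_rpow (half_le_log n) (le_max_left θ 0)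
  have h8 : 0 ≤ Real.log (n + 2) ^ θ := Real.rpow_nonneg (by linarith [half_le_log n]) _
  calc C * Real.log (n + 2) ^ θ ≤ |C| * Real.log (n + 2) ^ θ :=
        mul_le_mul_of_nonneg_right (le_abs_self C) h8
    _ ≤ |C| * (2 ^ (max θ 0 - θ) * Real.log (n + 2) ^ max θ 0) :=
        mul_le_mul_of_nonneg_left h7 (abs_nonneg C)
    _ = _ := by ring

/-- Correlations which are summable with logarithmic weights. -/
theorem cf_eq_zero_of_summable' {μ : Measure ℝ} (h : Inv23 μ) (h0 : ∀ x, μ {x} = 0) (θ : ℝ)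
    (hθ0 : 0 < θ) (hθ : θ < 1 / 2)
    (hS : ∀ m : ℕ, 1 ≤ m → Summable fun b : ℕ => ‖cc μ m b‖ / Real.log (b + 2) ^ θ)
    (m : ℕ) (hm : 1 ≤ m) : cf μ m = 0 := by
  have h1 := Pool.Agent.Helper17.KW.core_tail_gen (γ := 1 + θ) (by linarith) (by linarith)
    h h0 (fun m hm η hη => ?_) m hm
  · rw [← h1]
    unfold cf
    simp
  have hs := (summable_blocks θ hθ0 (by linarith) (fun b => ‖cc μ m b‖)
    (fun b => norm_nonneg _) (hS m hm)).mul_left (2 / η ^ 2)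
  refine Summable.of_nonneg_of_le (fun q => by positivity) (fun q => ?_) hs
  rcases Nat.eq_zero_or_pos q with hq | hq
  · subst hq
    rw [Nat.cast_zero, Real.zero_rpow (by linarith), Real.zero_rpow (by linarith)]
    simp
  have hq0 : (0 : ℝ) < q := by exact_mod_cast hq
  have hη2 : 0 < η ^ 2 := by positivity
  have h2 : ∑ b ∈ range (2 ^ q), (1 - (b : ℝ) / ((2 ^ q : ℕ) : ℝ)) * (cc μ m b).re ≤
      ∑ b ∈ range (2 ^ q), ‖cc μ m b‖ := by
    refine sum_le_sum fun b hb => ?_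
    have hb' : (b : ℝ) ≤ ((2 ^ q : ℕ) : ℝ) := by exact_mod_cast (mem_range.mp hb).le
    have hp : (0 : ℝ) < ((2 ^ q : ℕ) : ℝ) := by positivity
    have h3 : 0 ≤ 1 - (b : ℝ) / ((2 ^ q : ℕ) : ℝ) := by
      rw [sub_nonneg, div_le_one hp]; exact hb'
    have h4 : 1 - (b : ℝ) / ((2 ^ q : ℕ) : ℝ) ≤ 1 := by
      have : 0 ≤ (b : ℝ) / ((2 ^ q : ℕ) : ℝ) := by positivity
      linarith
    calc (1 - (b : ℝ) / ((2 ^ q : ℕ) : ℝ)) * (cc μ m b).re
        ≤ (1 - (b : ℝ) / ((2 ^ q : ℕ) : ℝ)) * ‖cc μ m b‖ :=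
          mul_le_mul_of_nonneg_left (re_cc_le m b) h3
      _ ≤ 1 * ‖cc μ m b‖ := mul_le_mul_of_nonneg_right h4 (norm_nonneg _)
      _ = _ := one_mul _
  have hV := variance_one_le h (2 ^ q) m Nat.one_le_two_pow _ h2
  have hD := (cheb h (2 ^ q) m η hη).trans (div_le_div_of_nonneg_right hV hη2.le)
  have hq11 : 0 < (q : ℝ) ^ (1 + θ) := Real.rpow_pos_of_pos hq0 _
  have e1 : (q : ℝ) ^ (-(1 + θ) : ℝ) = ((q : ℝ) ^ (1 + θ))⁻¹ := by
    rw [← Real.rpow_neg hq0.le]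
  calc (2 ^ q / (q : ℝ) ^ (1 + θ)) * μ.real (dev μ 1 (2 ^ q) m η)
      ≤ (2 ^ q / (q : ℝ) ^ (1 + θ)) *
        (2 * (∑ b ∈ range (2 ^ q), ‖cc μ m b‖) / ((2 ^ q : ℕ) : ℝ) / η ^ 2) := by gcongr
    _ = 2 / η ^ 2 * ((q : ℝ) ^ (-(1 + θ) : ℝ) * ∑ b ∈ range (2 ^ q), ‖cc μ m b‖) := by
        rw [e1]
        push_cast
        field_simp

/-- passage to a larger exponent -/
lemma summable_log_mono {c : ℕ → ℝ} (hc : ∀ b, 0 ≤ c b) {θ θ' : ℝ} (h : θ ≤ θ')
    (hs : Summable fun b : ℕ => c b / Real.log (b + 2) ^ θ) :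
    Summable fun b : ℕ => c b / Real.log (b + 2) ^ θ' := by
  have hp : ∀ (b : ℕ) (θ : ℝ), 0 < Real.log (b + 2) ^ θ := fun b θ =>
    Real.rpow_pos_of_pos (by linarith [half_le_log b]) _
  refine Summable.of_nonneg_of_le (fun b => div_nonneg (hc b) (hp b _).le) (fun b => ?_)
    (hs.mul_left (2 ^ (θ' - θ)))
  have h7 := rpow_le_mul_rpow (half_le_log b) h
  rw [mul_div_assoc', div_le_div_iff₀ (hp b _) (hp b _)]
  calc c b * Real.log (b + 2) ^ θ ≤ c b * (2 ^ (θ' - θ) * Real.log (b + 2) ^ θ') :=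
        mul_le_mul_of_nonneg_left h7 (hc b)
    _ = _ := by ring

theorem cf_eq_zero_of_summable {μ : Measure ℝ} (h : Inv23 μ) (h0 : ∀ x, μ {x} = 0) (θ : ℝ)
    (hθ : θ < 1 / 2)
    (hS : ∀ m : ℕ, 1 ≤ m → Summable fun b : ℕ => ‖cc μ m b‖ / Real.log (b + 2) ^ θ)
    (m : ℕ) (hm : 1 ≤ m) : cf μ m = 0 :=
  cf_eq_zero_of_summable' h h0 (max θ (1 / 4)) (lt_max_of_lt_right (by norm_num))
    (max_lt hθ (by norm_num)) (fun m hm => summable_log_mono (fun b => norm_nonneg _)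
      (le_max_left _ _) (hS m hm)) m hm

end Pool.Agent.Helper61.FR
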